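import Pool.Agent.H5R2.NB.Defs

/-! # Spectral measures of a unitary group (Bochner's theorem) -/

set_option autoImplicit false

open MeasureTheory Filter Topology
open scoped BigOperators ENNReal NNReal InnerProductSpace ComplexConjugate

namespace Pool.Agent.U619.ZV

open Pool.Agent.H5R2.NB

section boch

variable {X : Type} [NormedAddCommGroup X] [InnerProductSpace ℂ X] [CompleteSpace X]

theorem ip_pres (W : UG X) (t : ℝ) (x y : X) : ⟪W.U t x, W.U t y⟫_ℂ = ⟪x, y⟫_ℂ := by
  let L : X →ₗᵢ[ℂ] X := ⟨(W.U t).toLinearMap, W.norm' t⟩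
  exact L.inner_map_map x y

/-- the correlation function -/
noncomputable def hh (W : UG X) (e : X) (t : ℝ) : ℂ := ⟪e, W.U t e⟫_ℂ

theorem hh_cont (W : UG X) (e : X) : Continuous (hh W e) :=
  continuous_const.inner (W.cont' e)

theorem hh_norm (W : UG X) (e : X) (t : ℝ) : ‖hh W e t‖ ≤ ‖e‖ ^ 2 := by
  refine (norm_inner_le_norm _ _).trans ?_
  rw [W.norm', sq]

theorem hh_inner (W : UG X) (e : X) (s t : ℝ) : ⟪W.U s e, W.U t e⟫_ℂ = hh W e (t - s) := by
  have h : W.U t e = W.U s (W.U (t - s) e) := by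
    rw [← W.add']
    congr 2
    ring
  rw [h, ip_pres]
  rfl

/-- Gaussian -/
noncomputable def gs (b s : ℝ) : ℝ := Real.exp (-b * s ^ 2)

theorem gs_cont (b : ℝ) : Continuous (gs b) := by unfold gs; fun_prop

theorem gs_pos (b s : ℝ) : 0 < gs b s := Real.exp_pos _

theorem gs_int {b : ℝ} (hb : 0 < b) : Integrable (gs b) := integrable_exp_neg_mul_sq hb

theorem gs_conv {b : ℝ} (hb : 0 < b) (r : ℝ) :
    ∫ s : ℝ, gs b s * gs b (s + r) = Real.sqrt (Real.pi / (2 * b)) * gs (b / 2) r := by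
  have h1 : ∀ s : ℝ, gs b s * gs b (s + r) = gs (2 * b) (s + r / 2) * gs (b / 2) r := by
    intro s
    unfold gs
    rw [← Real.exp_add, ← Real.exp_add]
    congr 1
    ring
  simp only [h1]
  rw [integral_mul_const, integral_add_right_eq_self (gs (2 * b)) (r / 2)]
  congr 1
  exact integral_gaussian (2 * b)

/-- the wave packet -/
noncomputable def wp (W : UG X) (e : X) (b x s : ℝ) : X :=
  (Complex.exp (Complex.I * x * s) * (gs b s : ℂ)) • W.U s e

theorem ex_norm (x s : ℝ) : ‖Complex.exp (Complex.I * x * s)‖ = 1 := by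
  rw [Complex.norm_exp]; simp

theorem wp_cont (W : UG X) (e : X) (b x : ℝ) : Continuous (wp W e b x) := by
  unfold wp
  have := gs_cont b
  have := W.cont' e
  fun_prop

theorem wp_int (W : UG X) (e : X) {b : ℝ} (hb : 0 < b) (x : ℝ) : Integrable (wp W e b x) := by
  refine ((gs_int hb).mul_const ‖e‖).mono' (wp_cont W e b x).aestronglyMeasurable
    (Eventually.of_forall fun s => ?_)
  unfold wp
  rw [norm_smul, norm_mul, ex_norm, one_mul, W.norm', Complex.norm_real,
    Real.norm_of_nonneg (gs_pos b s).le]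

theorem wp_inner (W : UG X) (e : X) (b x s t : ℝ) :
    ⟪wp W e b x s, wp W e b x t⟫_ℂ =
      Complex.exp (Complex.I * x * ((t - s : ℝ) : ℂ)) * hh W e (t - s) *
        ((gs b s * gs b t : ℝ) : ℂ) := by
  unfold wp
  rw [inner_smul_left, inner_smul_right, hh_inner, map_mul, Complex.conj_ofReal,
    ← Complex.exp_conj]
  have : Complex.exp (Complex.I * x * ((t - s : ℝ) : ℂ)) =
      Complex.exp ((starRingEnd ℂ) (Complex.I * x * s)) * Complex.exp (Complex.I * x * t) := by
    rw [← Complex.exp_add]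
    congr 1
    simp
    ring
  rw [this]
  push_cast
  ring

/-- the regularised spectral density -/
noncomputable def FF (W : UG X) (e : X) (b x : ℝ) : ℂ :=
  ∫ r : ℝ, Complex.exp (Complex.I * x * r) * hh W e r * (gs (b / 2) r : ℂ)

theorem prod_int (W : UG X) (e : X) {b : ℝ} (hb : 0 < b) (x : ℝ) :
    Integrable (fun p : ℝ × ℝ => Complex.exp (Complex.I * x * ((p.2 - p.1 : ℝ) : ℂ)) *
      hh W e (p.2 - p.1) * ((gs b p.1 * gs b p.2 : ℝ) : ℂ)) (volume.prod volume) := by
  have h1 : Integrable (fun p : ℝ × ℝ => ‖e‖ ^ 2 * (gs b p.1 * gs b p.2))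
      (volume.prod volume) := ((gs_int hb).mul_prod (gs_int hb)).const_mul _
  refine h1.mono' ?_ (Eventually.of_forall fun p => ?_)
  · refine Continuous.aestronglyMeasurable ?_
    have := gs_cont b
    have := hh_cont W e
    fun_prop
  · rw [norm_mul, norm_mul, ex_norm, one_mul, Complex.norm_real,
      Real.norm_of_nonneg (mul_nonneg (gs_pos _ _).le (gs_pos _ _).le)]
    exact mul_le_mul_of_nonneg_right (hh_norm W e _)
      (mul_nonneg (gs_pos _ _).le (gs_pos _ _).le)

theorem FF_eq (W : UG X) (e : X) {b : ℝ} (hb : 0 < b) (x : ℝ) :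
    ((Real.sqrt (Real.pi / (2 * b)) : ℝ) : ℂ) * FF W e b x =
      ((‖∫ s : ℝ, wp W e b x s‖ ^ 2 : ℝ) : ℂ) := by
  set y := ∫ s : ℝ, wp W e b x s with hy
  have hi := wp_int W e hb x
  have h0 : ((‖y‖ ^ 2 : ℝ) : ℂ) = ⟪y, y⟫_ℂ := by
    rw [inner_self_eq_norm_sq_to_K]
    norm_cast
  have h1 : ⟪y, y⟫_ℂ = ∫ t : ℝ, ∫ s : ℝ, ⟪wp W e b x s, wp W e b x t⟫_ℂ := by
    conv_lhs => rw [hy]
    rw [← hy, ← integral_inner hi y]
    refine integral_congr_ae (Eventually.of_forall fun t => ?_)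
    show ⟪y, wp W e b x t⟫_ℂ = ∫ s : ℝ, ⟪wp W e b x s, wp W e b x t⟫_ℂ
    rw [← inner_conj_symm, hy, ← integral_inner hi (wp W e b x t), ← integral_conj]
    refine integral_congr_ae (Eventually.of_forall fun s => ?_)
    show (starRingEnd ℂ) ⟪wp W e b x t, wp W e b x s⟫_ℂ = _
    rw [inner_conj_symm]
  rw [h0, h1]
  simp only [wp_inner]
  have hP := prod_int W e hb x
  have h2 : ∫ t : ℝ, ∫ s : ℝ, Complex.exp (Complex.I * x * ((t - s : ℝ) : ℂ)) *
      hh W e (t - s) * ((gs b s * gs b t : ℝ) : ℂ) =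
      ∫ s : ℝ, ∫ t : ℝ, Complex.exp (Complex.I * x * ((t - s : ℝ) : ℂ)) *
      hh W e (t - s) * ((gs b s * gs b t : ℝ) : ℂ) :=
    (integral_integral_swap (f := fun s t : ℝ => Complex.exp (Complex.I * x * ((t - s : ℝ) : ℂ)) *
      hh W e (t - s) * ((gs b s * gs b t : ℝ) : ℂ)) hP).symm
  rw [h2]
  have h3 : ∀ s : ℝ, ∫ t : ℝ, Complex.exp (Complex.I * x * ((t - s : ℝ) : ℂ)) *
      hh W e (t - s) * ((gs b s * gs b t : ℝ) : ℂ) =
      ∫ r : ℝ, Complex.exp (Complex.I * x * r) * hh W e r * ((gs b s * gs b (s + r) : ℝ) : ℂ) := by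
    intro s
    rw [← integral_add_left_eq_self (fun t : ℝ => Complex.exp (Complex.I * x * ((t - s : ℝ) : ℂ)) *
      hh W e (t - s) * ((gs b s * gs b t : ℝ) : ℂ)) s]
    refine integral_congr_ae (Eventually.of_forall fun r => ?_)
    simp only [add_sub_cancel_left]
  simp only [h3]
  rw [integral_integral_swap]
  · have h4 : ∀ r : ℝ, ∫ s : ℝ, Complex.exp (Complex.I * x * r) * hh W e r *
        ((gs b s * gs b (s + r) : ℝ) : ℂ) = ((Real.sqrt (Real.pi / (2 * b)) : ℝ) : ℂ) *
          (Complex.exp (Complex.I * x * r) * hh W e r * (gs (b / 2) r : ℂ)) := by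
      intro r
      rw [integral_const_mul, integral_complex_ofReal, gs_conv hb]
      push_cast
      ring
    simp only [h4]
    rw [integral_const_mul]
    rfl
  · have h5 := ((measurePreserving_prod_add (volume : Measure ℝ) (volume : Measure ℝ)
      ).integrable_comp_of_integrable hP)
    refine h5.congr (Eventually.of_forall fun p => ?_)
    simp only [Function.comp, Function.uncurry, add_sub_cancel_left]

end boch

end Pool.Agent.U619.ZV
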