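import Pool.Agent.U619.ZV.Boch

/-! # Spectral measures of a unitary group (Bochner's theorem), second part -/

set_option autoImplicit false

open MeasureTheory Filter Topology
open scoped BigOperators ENNReal NNReal InnerProductSpace ComplexConjugate

namespace Pool.Agent.U619.ZV

open Pool.Agent.H5R2.NB

variable {X : Type} [NormedAddCommGroup X] [InnerProductSpace ℂ X] [CompleteSpace X]

theorem FF_real (W : UG X) (e : X) {b : ℝ} (hb : 0 < b) (x : ℝ) :
    0 ≤ (FF W e b x).re ∧ ((FF W e b x).re : ℂ) = FF W e b x := by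
  have h := FF_eq W e hb x
  have hc : (0 : ℝ) < Real.sqrt (Real.pi / (2 * b)) := Real.sqrt_pos.2 (by positivity)
  have h2 : FF W e b x = (((Real.sqrt (Real.pi / (2 * b)))⁻¹ *
      ‖∫ s : ℝ, wp W e b x s‖ ^ 2 : ℝ) : ℂ) := by
    have hc' : ((Real.sqrt (Real.pi / (2 * b)) : ℝ) : ℂ) ≠ 0 := by exact_mod_cast hc.ne'
    rw [Complex.ofReal_mul, ← h, Complex.ofReal_inv, ← mul_assoc, inv_mul_cancel₀ hc', one_mul]
  rw [h2, Complex.ofReal_re]
  exact ⟨by positivity, rfl⟩

theorem FF_norm (W : UG X) (e : X) {b : ℝ} (hb : 0 < b) (x : ℝ) :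
    ‖FF W e b x‖ ≤ ∫ r : ℝ, ‖e‖ ^ 2 * gs (b / 2) r := by
  unfold FF
  refine norm_integral_le_of_norm_le ((gs_int (by positivity)).const_mul _)
    (Eventually.of_forall fun r => ?_)
  rw [norm_mul, norm_mul, ex_norm, one_mul, Complex.norm_real, Real.norm_of_nonneg (gs_pos _ _).le]
  exact mul_le_mul_of_nonneg_right (hh_norm W e _) (gs_pos _ _).le

theorem FF_meas (W : UG X) (e : X) (b : ℝ) : StronglyMeasurable (FF W e b) := by
  have hc : Continuous (Function.uncurry fun (x r : ℝ) =>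
      Complex.exp (Complex.I * x * r) * hh W e r * (gs (b / 2) r : ℂ)) := by
    have := gs_cont (b / 2)
    have := hh_cont W e
    unfold Function.uncurry
    fun_prop
  exact hc.stronglyMeasurable.integral_prod_right

theorem gs_fourier {b : ℝ} (hb : 0 < b) (t : ℝ) :
    ∫ x : ℝ, Complex.exp (Complex.I * t * x) * (gs b x : ℂ) =
      ((Real.sqrt (Real.pi / b) * Real.exp (-t ^ 2 / (4 * b)) : ℝ) : ℂ) := by
  have hb' : 0 < ((b : ℝ) : ℂ).re := by simpa using hb
  have h1 := fourierIntegral_gaussian hb' (t : ℂ)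
  have h0 := fourierIntegral_gaussian hb' (0 : ℂ)
  have e1 : ∀ x : ℝ, Complex.exp (-(b : ℂ) * (x : ℂ) ^ 2) = (gs b x : ℂ) := by
    intro x
    unfold gs
    push_cast
    rfl
  simp only [e1] at h1 h0
  have h2 : ∫ x : ℝ, Complex.exp (Complex.I * 0 * x) * (gs b x : ℂ) =
      ((Real.sqrt (Real.pi / b) : ℝ) : ℂ) := by
    have : ∀ x : ℝ, Complex.exp (Complex.I * 0 * x) * (gs b x : ℂ) = (gs b x : ℂ) := fun x => by
      simp
    simp only [this]
    rw [integral_complex_ofReal]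
    congr 1
    exact integral_gaussian b
  rw [h2] at h0
  have h3 : Complex.exp (-(0 : ℂ) ^ 2 / (4 * b)) = 1 := by simp
  rw [h3, mul_one] at h0
  rw [h1, ← h0]
  push_cast
  rfl

theorem char_eq (W : UG X) (e : X) {σ : ℝ} (hσ : 0 < σ) (t : ℝ) :
    ∫ x : ℝ, Complex.exp (t * x * Complex.I) * (FF W e σ x * (gs (σ ^ 2 / 4) x : ℂ)) =
      ((2 * Real.sqrt Real.pi : ℝ) : ℂ) * ∫ y : ℝ, hh W e (σ * y - t) *
        ((gs (σ / 2) (σ * y - t) * gs 1 y : ℝ) : ℂ) := by
  have hb : 0 < σ ^ 2 / 4 := by positivity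
  have e1 : ∀ x : ℝ, Complex.exp (t * x * Complex.I) * (FF W e σ x * (gs (σ ^ 2 / 4) x : ℂ)) =
      ∫ r : ℝ, (Complex.exp (Complex.I * ((t + r : ℝ) : ℂ) * x) * (gs (σ ^ 2 / 4) x : ℂ)) *
        (hh W e r * (gs (σ / 2) r : ℂ)) := by
    intro x
    unfold FF
    rw [← integral_mul_const, ← integral_const_mul]
    refine integral_congr_ae (Eventually.of_forall fun r => ?_)
    have : Complex.exp (Complex.I * ((t + r : ℝ) : ℂ) * x) =
        Complex.exp (t * x * Complex.I) * Complex.exp (Complex.I * x * r) := by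
      rw [← Complex.exp_add]
      congr 1
      push_cast
      ring
    simp only [this]
    ring
  simp only [e1]
  rw [integral_integral_swap]
  · have e2 : ∀ r : ℝ, ∫ x : ℝ, (Complex.exp (Complex.I * ((t + r : ℝ) : ℂ) * x) *
        (gs (σ ^ 2 / 4) x : ℂ)) * (hh W e r * (gs (σ / 2) r : ℂ)) =
        ((Real.sqrt (Real.pi / (σ ^ 2 / 4)) : ℝ) : ℂ) * (hh W e r * ((gs (σ / 2) r *
          gs (1 / σ ^ 2) (t + r) : ℝ) : ℂ)) := by
      intro r
      rw [integral_mul_const, gs_fourier hb]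
      have : Real.exp (-(t + r) ^ 2 / (4 * (σ ^ 2 / 4))) = gs (1 / σ ^ 2) (t + r) := by
        unfold gs
        congr 1
        field_simp
      rw [this]
      push_cast
      ring
    simp only [e2]
    rw [integral_const_mul]
    have e3 : Real.sqrt (Real.pi / (σ ^ 2 / 4)) = 2 * Real.sqrt Real.pi * σ⁻¹ := by
      have : Real.pi / (σ ^ 2 / 4) = Real.pi * (2 * σ⁻¹) ^ 2 := by
        field_simp
        ring
      rw [this, Real.sqrt_mul Real.pi_pos.le, Real.sqrt_sq (by positivity)]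
      ring
    rw [e3]
    have e4 : ∫ y : ℝ, hh W e (σ * y - t) * ((gs (σ / 2) (σ * y - t) * gs 1 y : ℝ) : ℂ) =
        (σ⁻¹ : ℂ) * ∫ r : ℝ, hh W e r * ((gs (σ / 2) r * gs (1 / σ ^ 2) (t + r) : ℝ) : ℂ) := by
      have h1 := Measure.integral_comp_mul_left (fun z : ℝ => hh W e (z - t) *
        ((gs (σ / 2) (z - t) * gs (1 / σ ^ 2) (t + (z - t)) : ℝ) : ℂ)) σ
      have h2 := integral_sub_right_eq_self (μ := (volume : Measure ℝ)) (fun r : ℝ => hh W e r *
        ((gs (σ / 2) r * gs (1 / σ ^ 2) (t + r) : ℝ) : ℂ)) t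
      rw [h2] at h1
      have h3 : ∫ y : ℝ, hh W e (σ * y - t) * ((gs (σ / 2) (σ * y - t) * gs 1 y : ℝ) : ℂ) =
          ∫ y : ℝ, hh W e (σ * y - t) *
        ((gs (σ / 2) (σ * y - t) * gs (1 / σ ^ 2) (t + (σ * y - t)) : ℝ) : ℂ) := by
        refine integral_congr_ae (Eventually.of_forall fun y => ?_)
        have : gs (1 / σ ^ 2) (t + (σ * y - t)) = gs 1 y := by
          unfold gs
          congr 1
          field_simp
          ring
        simp only [this]
      rw [h3, h1, abs_of_pos (by positivity)]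
      rw [Complex.real_smul]
      push_cast
      rfl
    rw [e4]
    push_cast
    ring
  · have h1 : Integrable (fun p : ℝ × ℝ => gs (σ ^ 2 / 4) p.1 * (‖e‖ ^ 2 * gs (σ / 2) p.2))
        (volume.prod volume) :=
      (gs_int hb).mul_prod ((gs_int (by positivity)).const_mul _)
    refine h1.mono' ?_ (Eventually.of_forall fun p => ?_)
    · refine Continuous.aestronglyMeasurable ?_
      have := gs_cont (σ ^ 2 / 4)
      have := gs_cont (σ / 2)
      have := hh_cont W e
      unfold Function.uncurry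
      fun_prop
    · simp only [Function.uncurry]
      rw [norm_mul, norm_mul, norm_mul, ex_norm, one_mul, Complex.norm_real, Complex.norm_real,
        Real.norm_of_nonneg (gs_pos _ _).le, Real.norm_of_nonneg (gs_pos _ _).le]
      have := hh_norm W e p.2
      have := (gs_pos (σ ^ 2 / 4) p.1).le
      have := (gs_pos (σ / 2) p.2).le
      gcongr

theorem char_lim (W : UG X) (e : X) (σ : ℕ → ℝ) (hσ : Tendsto σ atTop (𝓝 0)) (h0 : ∀ n, 0 < σ n)
    (t : ℝ) :
    Tendsto (fun n => ∫ y : ℝ, hh W e (σ n * y - t) *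
        ((gs (σ n / 2) (σ n * y - t) * gs 1 y : ℝ) : ℂ)) atTop
      (𝓝 (((Real.sqrt Real.pi : ℝ) : ℂ) * hh W e (-t))) := by
  have e1 : ((Real.sqrt Real.pi : ℝ) : ℂ) * hh W e (-t) = ∫ y : ℝ, hh W e (-t) *
      ((gs 1 y : ℝ) : ℂ) := by
    rw [integral_const_mul, integral_complex_ofReal]
    have : ∫ y : ℝ, gs 1 y = Real.sqrt Real.pi := by
      have := integral_gaussian 1
      rw [div_one] at this
      exact this
    rw [this, mul_comm]
  rw [e1]
  refine tendsto_integral_of_dominated_convergence (fun y => ‖e‖ ^ 2 * gs 1 y) (fun n => ?_)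
    ((gs_int one_pos).const_mul _) (fun n => Eventually.of_forall fun y => ?_)
    (Eventually.of_forall fun y => ?_)
  · refine Continuous.aestronglyMeasurable ?_
    have := gs_cont (σ n / 2)
    have := gs_cont 1
    have := hh_cont W e
    fun_prop
  · rw [norm_mul, Complex.norm_real, Real.norm_of_nonneg (by
      have := (gs_pos (σ n / 2) (σ n * y - t)).le
      have := (gs_pos 1 y).le
      positivity)]
    have h1 : gs (σ n / 2) (σ n * y - t) ≤ 1 := by
      unfold gs
      rw [Real.exp_le_one_iff]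
      have := h0 n
      have : 0 ≤ σ n / 2 * (σ n * y - t) ^ 2 := by positivity
      linarith
    have h2 := (gs_pos 1 y).le
    have h3 : gs (σ n / 2) (σ n * y - t) * gs 1 y ≤ gs 1 y := mul_le_of_le_one_left h2 h1
    have h4 : 0 ≤ gs (σ n / 2) (σ n * y - t) * gs 1 y := mul_nonneg (gs_pos _ _).le h2
    exact mul_le_mul (hh_norm W e _) h3 h4 (by positivity)
  · have hz : Tendsto (fun n => σ n * y - t) atTop (𝓝 (-t)) := by
      have := (hσ.mul_const y).sub_const t
      simpa using this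
    have h1 := ((hh_cont W e).tendsto (-t)).comp hz
    have h2 : Tendsto (fun n => gs (σ n / 2) (σ n * y - t)) atTop (𝓝 1) := by
      unfold gs
      have h3 : Tendsto (fun n => -(σ n / 2) * (σ n * y - t) ^ 2) atTop (𝓝 0) := by
        have := ((hσ.div_const 2).neg).mul (hz.pow 2)
        simpa using this
      have := (Real.continuous_exp.tendsto 0).comp h3
      rw [Real.exp_zero] at this
      exact this
    have h5 : Tendsto (fun n => ((gs (σ n / 2) (σ n * y - t) * gs 1 y : ℝ) : ℂ)) atTop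
        (𝓝 ((gs 1 y : ℝ) : ℂ)) := by
      have := (h2.mul_const (gs 1 y))
      rw [one_mul] at this
      exact (Complex.continuous_ofReal.tendsto _).comp this
    exact h1.mul h5

/-- the approximating measures -/
noncomputable def nuA (W : UG X) (e : X) (σ : ℝ) : Measure ℝ :=
  volume.withDensity fun x => ENNReal.ofReal
    ((2 * Real.pi)⁻¹ * ((FF W e σ x).re * gs (σ ^ 2 / 4) x))

theorem dens_meas (W : UG X) (e : X) (σ : ℝ) :
    Measurable fun x => (2 * Real.pi)⁻¹ * ((FF W e σ x).re * gs (σ ^ 2 / 4) x) := by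
  have h1 : Measurable fun x => (FF W e σ x).re :=
    Complex.measurable_re.comp (FF_meas W e σ).measurable
  exact (h1.mul (gs_cont _).measurable).const_mul _

theorem dens_int (W : UG X) (e : X) {σ : ℝ} (hσ : 0 < σ) :
    Integrable fun x => (2 * Real.pi)⁻¹ * ((FF W e σ x).re * gs (σ ^ 2 / 4) x) := by
  have h1 : Integrable fun x => (2 * Real.pi)⁻¹ * ((∫ r : ℝ, ‖e‖ ^ 2 * gs (σ / 2) r) *
      gs (σ ^ 2 / 4) x) := ((gs_int (by positivity)).const_mul _).const_mul _
  refine h1.mono' (dens_meas W e σ).aestronglyMeasurable (Eventually.of_forall fun x => ?_)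
  have h2 := FF_norm W e hσ x
  have h3 := (Complex.abs_re_le_norm (FF W e σ x)).trans h2
  have h4 := (gs_pos (σ ^ 2 / 4) x).le
  rw [norm_mul, norm_mul, Real.norm_of_nonneg h4, Real.norm_of_nonneg (by positivity),
    Real.norm_eq_abs]
  gcongr

theorem nuA_fin (W : UG X) (e : X) {σ : ℝ} (hσ : 0 < σ) : IsFiniteMeasure (nuA W e σ) :=
  isFiniteMeasure_withDensity_ofReal (dens_int W e hσ).2

theorem nuA_char (W : UG X) (e : X) {σ : ℝ} (hσ : 0 < σ) (t : ℝ) :
    charFun (nuA W e σ) t = (((Real.sqrt Real.pi)⁻¹ : ℝ) : ℂ) *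
      ∫ y : ℝ, hh W e (σ * y - t) * ((gs (σ / 2) (σ * y - t) * gs 1 y : ℝ) : ℂ) := by
  rw [charFun_apply_real]
  unfold nuA
  rw [integral_withDensity_eq_integral_toReal_smul (dens_meas W e σ).ennreal_ofReal
    (Eventually.of_forall fun x => ENNReal.ofReal_lt_top)]
  have h1 : ∀ x : ℝ, (ENNReal.ofReal ((2 * Real.pi)⁻¹ * ((FF W e σ x).re *
      gs (σ ^ 2 / 4) x))).toReal • Complex.exp (t * x * Complex.I) =
      (((2 * Real.pi)⁻¹ : ℝ) : ℂ) * (Complex.exp (t * x * Complex.I) *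
        (FF W e σ x * (gs (σ ^ 2 / 4) x : ℂ))) := by
    intro x
    obtain ⟨h2, h3⟩ := FF_real W e hσ x
    have h4 := (gs_pos (σ ^ 2 / 4) x).le
    rw [ENNReal.toReal_ofReal (by positivity), Complex.real_smul]
    conv_rhs => rw [← h3]
    push_cast
    ring
  simp only [h1]
  rw [integral_const_mul, char_eq W e hσ, ← mul_assoc]
  congr 1
  rw [← Complex.ofReal_mul]
  congr 1
  have h5 : Real.sqrt Real.pi ≠ 0 := (Real.sqrt_pos.2 Real.pi_pos).ne'
  have h6 : Real.pi = Real.sqrt Real.pi * Real.sqrt Real.pi :=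
    (Real.mul_self_sqrt Real.pi_pos.le).symm
  field_simp
  rw [sq]
  exact (Real.mul_self_sqrt Real.pi_pos.le)

/-- every vector has a spectral measure -/
theorem spectral_one (W : UG X) (e : X) (he : ‖e‖ = 1) :
    ∃ μ : Measure ℝ, IsFiniteMeasure μ ∧
      ∀ t : ℝ, ⟪e, W.U t e⟫_ℂ = ∫ E : ℝ, Complex.exp (-(Complex.I * t * E)) ∂μ := by
  obtain ⟨σ, hσ⟩ : ∃ σ : ℕ → ℝ, σ = fun n : ℕ => 1 / ((n : ℝ) + 1) := ⟨_, rfl⟩
  have h0 : ∀ n, 0 < σ n := fun n => by rw [hσ]; positivity
  have hlim : Tendsto σ atTop (𝓝 0) := by rw [hσ]; exact tendsto_one_div_add_atTop_nhds_zero_nat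
  have hch : ∀ t : ℝ, Tendsto (fun n => charFun (nuA W e (σ n)) t) atTop (𝓝 (hh W e (-t))) := by
    intro t
    have h1 := (char_lim W e σ hlim h0 t).const_mul (((Real.sqrt Real.pi)⁻¹ : ℝ) : ℂ)
    have h2 : (((Real.sqrt Real.pi)⁻¹ : ℝ) : ℂ) * (((Real.sqrt Real.pi : ℝ) : ℂ) *
        hh W e (-t)) = hh W e (-t) := by
      rw [← mul_assoc, ← Complex.ofReal_mul,
        inv_mul_cancel₀ (Real.sqrt_pos.2 Real.pi_pos).ne', Complex.ofReal_one, one_mul]
    rw [h2] at h1
    refine h1.congr fun n => ?_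
    rw [nuA_char W e (h0 n)]
  have hh0 : hh W e (-0) = 1 := by
    unfold hh
    rw [neg_zero, W.zero', inner_self_eq_norm_sq_to_K, he]
    simp
  have hmass : Tendsto (fun n => (nuA W e (σ n)).real Set.univ) atTop (𝓝 1) := by
    have h1 := hch 0
    rw [hh0] at h1
    simp only [charFun_zero] at h1
    have h2 := (Complex.continuous_re.tendsto _).comp h1
    rw [Complex.one_re] at h2
    exact h2
  obtain ⟨N, hN⟩ := eventually_atTop.1 ((tendsto_order.1 hmass).1 (1 / 2) (by norm_num))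
  have hfin : ∀ n, IsFiniteMeasure (nuA W e (σ n)) := fun n => nuA_fin W e (h0 n)
  obtain ⟨m, hm⟩ : ∃ m : ℕ → ℝ, m = fun n => (nuA W e (σ (n + N))).real Set.univ := ⟨_, rfl⟩
  have hmp : ∀ n, 0 < m n := fun n => by
    rw [hm]
    have := hN (n + N) (by omega)
    show 0 < (nuA W e (σ (n + N))).real Set.univ
    linarith
  obtain ⟨P, hP⟩ : ∃ P : ℕ → Measure ℝ, P = fun n =>
      ENNReal.ofReal (m n)⁻¹ • nuA W e (σ (n + N)) := ⟨_, rfl⟩
  have hPp : ∀ n, IsProbabilityMeasure (P n) := by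
    intro n
    constructor
    rw [hP]
    show ENNReal.ofReal (m n)⁻¹ * (nuA W e (σ (n + N))) Set.univ = 1
    have h1 : (nuA W e (σ (n + N))) Set.univ = ENNReal.ofReal (m n) := by
      rw [hm]
      show _ = ENNReal.ofReal ((nuA W e (σ (n + N))) Set.univ).toReal
      rw [ENNReal.ofReal_toReal (measure_ne_top _ _)]
    rw [h1, ← ENNReal.ofReal_mul (inv_nonneg.2 (hmp n).le), inv_mul_cancel₀ (hmp n).ne',
      ENNReal.ofReal_one]
  have hPc : ∀ t : ℝ, Tendsto (fun n => charFun (P n) t) atTop (𝓝 (hh W e (-t))) := by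
    intro t
    have h1 : ∀ n, charFun (P n) t = (((m n)⁻¹ : ℝ) : ℂ) *
        charFun (nuA W e (σ (n + N))) t := by
      intro n
      rw [hP, charFun_apply_real, charFun_apply_real]
      show ∫ x : ℝ, _ ∂(ENNReal.ofReal (m n)⁻¹ • nuA W e (σ (n + N))) = _
      rw [integral_smul_measure, ENNReal.toReal_ofReal (inv_nonneg.2 (hmp n).le),
        Complex.real_smul]
    simp only [h1]
    have h2 : Tendsto (fun n => (((m n)⁻¹ : ℝ) : ℂ)) atTop (𝓝 ((1 : ℝ) : ℂ)) := by
      have h3 : Tendsto m atTop (𝓝 1) := by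
        rw [hm]
        exact hmass.comp (tendsto_add_atTop_nat N)
      have h4 := h3.inv₀ one_ne_zero
      rw [inv_one] at h4
      exact (Complex.continuous_ofReal.tendsto _).comp h4
    have h5 := h2.mul ((hch t).comp (tendsto_add_atTop_nat N))
    rw [Complex.ofReal_one, one_mul] at h5
    exact h5
  have htight : IsTightMeasureSet (Set.range P) :=
    isTightMeasureSet_of_tendsto_charFun (f := fun t => hh W e (-t))
      ((hh_cont W e).comp continuous_neg).continuousAt hPc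
  obtain ⟨Q, hQ⟩ : ∃ Q : ℕ → ProbabilityMeasure ℝ, Q = fun n => ⟨P n, hPp n⟩ := ⟨_, rfl⟩
  have htight2 : IsTightMeasureSet {(μ : Measure ℝ) | μ ∈ Set.range Q} := by
    have : {((μ : ProbabilityMeasure ℝ) : Measure ℝ) | μ ∈ Set.range Q} = Set.range P := by
      ext x
      constructor
      · rintro ⟨_, ⟨n, rfl⟩, rfl⟩
        exact ⟨n, by rw [hQ]; rfl⟩
      · rintro ⟨n, rfl⟩
        exact ⟨Q n, ⟨n, rfl⟩, by rw [hQ]; rfl⟩
    rw [this]
    exact htight
  have hcomp : IsCompact (closure (Set.range Q)) := isCompact_closure_of_isTightMeasureSet htight2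
  obtain ⟨U, hU⟩ : ∃ U : Ultrafilter ℕ, (U : Filter ℕ) ≤ atTop :=
    ⟨Ultrafilter.of atTop, Ultrafilter.of_le _⟩
  obtain ⟨Q', -, hQ'⟩ := hcomp.ultrafilter_le_nhds (U.map Q) (by
    rw [le_principal_iff]
    refine Filter.mem_of_superset ?_ subset_closure
    exact Filter.mem_map.2 (Filter.univ_mem' fun n => ⟨n, rfl⟩))
  have hQ2 : Tendsto Q U (𝓝 Q') := hQ'
  refine ⟨Q', inferInstance, fun t => ?_⟩
  have h1 : Tendsto (fun n => charFun (Q n : Measure ℝ) (-t)) U
      (𝓝 (charFun (Q' : Measure ℝ) (-t))) := by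
    rw [ProbabilityMeasure.tendsto_iff_forall_integral_rclike_tendsto ℂ] at hQ2
    simp_rw [charFun_eq_integral_innerProbChar]
    exact hQ2 (BoundedContinuousFunction.innerProbChar (-t))
  have h2 : Tendsto (fun n => charFun (Q n : Measure ℝ) (-t)) U (𝓝 (hh W e (- -t))) := by
    refine ((hPc (-t)).mono_left hU).congr fun n => ?_
    rw [hQ]
    rfl
  have h3 := tendsto_nhds_unique h2 h1
  rw [neg_neg] at h3
  show hh W e t = _
  rw [h3, charFun_apply_real]
  refine integral_congr_ae (Eventually.of_forall fun x => ?_)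
  show Complex.exp _ = Complex.exp _
  congr 1
  push_cast
  ring

/-- every vector has a spectral measure -/
theorem spectral (W : UG X) (e : X) :
    ∃ μ : Measure ℝ, IsFiniteMeasure μ ∧
      ∀ t : ℝ, ⟪e, W.U t e⟫_ℂ = ∫ E : ℝ, Complex.exp (-(Complex.I * t * E)) ∂μ := by
  by_cases he : e = 0
  · subst he
    exact ⟨0, inferInstance, fun t => by simp⟩
  have hn : ‖e‖ ≠ 0 := norm_ne_zero_iff.2 he
  obtain ⟨μ, hμ, h⟩ := spectral_one W (((‖e‖⁻¹ : ℝ) : ℂ) • e) (by
    rw [norm_smul, Complex.norm_real, Real.norm_of_nonneg (by positivity), inv_mul_cancel₀ hn])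
  refine ⟨ENNReal.ofReal (‖e‖ ^ 2) • μ, Measure.smul_finite _ ENNReal.ofReal_ne_top,
    fun t => ?_⟩
  rw [integral_smul_measure, ENNReal.toReal_ofReal (by positivity), ← h t, map_smul,
    inner_smul_left, inner_smul_right, Complex.conj_ofReal, Complex.real_smul]
  have : ((‖e‖ : ℝ) : ℂ) ≠ 0 := by exact_mod_cast hn
  push_cast
  field_simp

end Pool.Agent.U619.ZV
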