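import Pool.Agent.U619.ZV.Boch

/-! # Rank one perturbations: the singular parts of the spectral measures are mutually singular -/

set_option autoImplicit false

open MeasureTheory Filter Topology
open scoped BigOperators ENNReal NNReal InnerProductSpace ComplexConjugate

namespace Pool.Agent.U619.ZV

open Pool.Agent.H5R2.NB

/-- the Borel transform of a measure at `E + i ε` -/
noncomputable def BF (μ : Measure ℝ) (E ε : ℝ) : ℂ :=
  ∫ x : ℝ, ((x : ℂ) - (E + Complex.I * ε))⁻¹ ∂μ

theorem den_norm (x E ε : ℝ) (hε : 0 < ε) : ε ≤ ‖(x : ℂ) - (E + Complex.I * ε)‖ := by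
  have h1 := Complex.abs_im_le_norm ((x : ℂ) - (E + Complex.I * ε))
  have h2 : ((x : ℂ) - (E + Complex.I * ε)).im = -ε := by simp
  rw [h2, abs_neg, abs_of_pos hε] at h1
  exact h1

theorem BF_int (μ : Measure ℝ) [IsFiniteMeasure μ] (E ε : ℝ) (hε : 0 < ε) :
    Integrable (fun x : ℝ => ((x : ℂ) - (E + Complex.I * ε))⁻¹) μ := by
  refine Integrable.of_bound (C := ε⁻¹) ?_ (Eventually.of_forall fun x => ?_)
  · exact (Measurable.inv (by fun_prop)).aestronglyMeasurable
  · rw [norm_inv]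
    exact inv_anti₀ hε (den_norm x E ε hε)

theorem im_inv (x E ε : ℝ) :
    (((x : ℂ) - (E + Complex.I * ε))⁻¹).im = ε / ((x - E) ^ 2 + ε ^ 2) := by
  rw [Complex.inv_im, Complex.normSq_apply]
  simp
  ring_nf

theorem BF_im (μ : Measure ℝ) [IsFiniteMeasure μ] (E ε : ℝ) (hε : 0 < ε) :
    (BF μ E ε).im = ∫ x : ℝ, ε / ((x - E) ^ 2 + ε ^ 2) ∂μ := by
  have h := integral_im (BF_int μ E ε hε)
  simp only [RCLike.im_to_complex] at h
  unfold BF
  rw [← h]
  refine integral_congr_ae (Eventually.of_forall fun x => ?_)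
  exact im_inv x E ε

theorem BF_im_ge (μ : Measure ℝ) [IsFiniteMeasure μ] (E ε : ℝ) (hε : 0 < ε) :
    (2 * ε)⁻¹ * μ.real (Metric.closedBall E ε) ≤ (BF μ E ε).im := by
  rw [BF_im μ E ε hε]
  have hint : Integrable (fun x : ℝ => ε / ((x - E) ^ 2 + ε ^ 2)) μ := by
    have h := (BF_int μ E ε hε).im
    refine h.congr (Eventually.of_forall fun x => ?_)
    exact im_inv x E ε
  have h1 : ∫ x in Metric.closedBall E ε, (2 * ε)⁻¹ ∂μ ≤
      ∫ x in Metric.closedBall E ε, ε / ((x - E) ^ 2 + ε ^ 2) ∂μ := by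
    refine setIntegral_mono_on (integrable_const _).integrableOn hint.integrableOn
      Metric.isClosed_closedBall.measurableSet fun x hx => ?_
    rw [Metric.mem_closedBall, Real.dist_eq] at hx
    have h2 : (x - E) ^ 2 ≤ ε ^ 2 := by
      rw [← sq_abs (x - E)]
      exact pow_le_pow_left₀ (abs_nonneg _) hx 2
    rw [inv_eq_one_div, div_le_div_iff₀ (by positivity) (by positivity)]
    nlinarith
  have h3 : ∫ x in Metric.closedBall E ε, ε / ((x - E) ^ 2 + ε ^ 2) ∂μ ≤
      ∫ x, ε / ((x - E) ^ 2 + ε ^ 2) ∂μ :=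
    setIntegral_le_integral hint (Eventually.of_forall fun x => by positivity)
  rw [setIntegral_const, smul_eq_mul, mul_comm] at h1
  exact h1.trans h3

/-- the Borel transform of the singular part blows up -/
theorem blow (μ : Measure ℝ) [IsFiniteMeasure μ] (A : Set ℝ) (hA : MeasurableSet A)
    (h0 : volume A = 0) :
    ∀ᵐ E ∂(μ.restrict A), Tendsto (fun ε : ℝ => (BF μ E ε).im) (𝓝[>] 0) atTop := by
  have hs : (volume : Measure ℝ) ⟂ₘ μ.restrict A := by
    refine ⟨A, hA, h0, ?_⟩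
    rw [Measure.restrict_apply hA.compl, Set.compl_inter_self, measure_empty]
  filter_upwards [(Besicovitch.vitaliFamily (μ.restrict A)).ae_eventually_measure_zero_of_singular
    hs] with E hE
  have h1 := hE.comp (Besicovitch.tendsto_filterAt (μ.restrict A) E)
  rw [tendsto_atTop]
  intro M
  obtain ⟨M', hM'0, hM'⟩ : ∃ M', 0 < M' ∧ M ≤ M' :=
    ⟨max M 1, lt_max_of_lt_right one_pos, le_max_left _ _⟩
  have h2 := (tendsto_order.1 h1).2 (ENNReal.ofReal M'⁻¹) (ENNReal.ofReal_pos.2 (by positivity))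
  filter_upwards [h2, self_mem_nhdsWithin] with ε hε hε0
  have hε1 : (0 : ℝ) < ε := hε0
  simp only [Function.comp, Real.volume_closedBall] at hε
  have hmt : (μ.restrict A) (Metric.closedBall E ε) ≠ ∞ := measure_ne_top _ _
  have hm0 : (μ.restrict A) (Metric.closedBall E ε) ≠ 0 := by
    intro h
    rw [h, ENNReal.div_zero (ENNReal.ofReal_pos.2 (by positivity)).ne'] at hε
    exact absurd hε (by simp)
  rw [ENNReal.div_lt_iff (Or.inl hm0) (Or.inl hmt)] at hε
  have h3 : 2 * ε < M'⁻¹ * ((μ.restrict A) (Metric.closedBall E ε)).toReal := by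
    have h4 := (ENNReal.toReal_lt_toReal ENNReal.ofReal_ne_top
      (ENNReal.mul_ne_top ENNReal.ofReal_ne_top hmt)).2 hε
    rw [ENNReal.toReal_ofReal (by positivity), ENNReal.toReal_mul,
      ENNReal.toReal_ofReal (by positivity)] at h4
    exact h4
  have h5 : ((μ.restrict A) (Metric.closedBall E ε)).toReal ≤ μ.real (Metric.closedBall E ε) :=
    ENNReal.toReal_mono (measure_ne_top _ _) (Measure.restrict_apply_le _ _)
  have h6 := BF_im_ge μ E ε hε1
  have h7 : M' ≤ (2 * ε)⁻¹ * μ.real (Metric.closedBall E ε) := by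
    rw [inv_mul_eq_div, le_div_iff₀ (by positivity)]
    have h8 : M' * (2 * ε) ≤ M' * (M'⁻¹ * ((μ.restrict A) (Metric.closedBall E ε)).toReal) :=
      mul_le_mul_of_nonneg_left h3.le hM'0.le
    have h9 : M' * (M'⁻¹ * ((μ.restrict A) (Metric.closedBall E ε)).toReal) =
        ((μ.restrict A) (Metric.closedBall E ε)).toReal := by
      rw [← mul_assoc, mul_inv_cancel₀ hM'0.ne', one_mul]
    rw [h9] at h8
    linarith
  linarith

/-- Aronszajn–Donoghue -/
theorem AD (μ μ' ρ : Measure ℝ) [IsFiniteMeasure μ] [IsFiniteMeasure μ'] (κ : ℝ) (hκ : κ ≠ 0)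
    (hK : ∀ E ε : ℝ, 0 < ε → BF μ' E ε * (1 + κ * BF μ E ε) = BF μ E ε)
    (h1 : ρ ≪ μ) (h2 : ρ ≪ μ') : ρ ≪ volume := by
  refine Measure.AbsolutelyContinuous.mk fun A hA h0 => ?_
  have e1 := h1.ae_le ((ae_restrict_iff' hA).1 (blow μ A hA h0))
  have e2 := h2.ae_le ((ae_restrict_iff' hA).1 (blow μ' A hA h0))
  have e3 : ∀ᵐ E ∂ρ, E ∉ A := by
    filter_upwards [e1, e2] with E h3 h4 hE
    have h5 := h3 hE
    have h6 := h4 hE
    have h7 := (tendsto_atTop.1 h5) (2 / |κ|)
    have h8 := (tendsto_atTop.1 h6) (2 / |κ| + 1)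
    obtain ⟨ε, ⟨h9, h10⟩, h11⟩ := ((h7.and h8).and self_mem_nhdsWithin).exists
    have hε : (0 : ℝ) < ε := h11
    have hκ0 : 0 < |κ| := abs_pos.2 hκ
    have h12 : 2 / |κ| ≤ ‖BF μ E ε‖ := h9.trans ((le_abs_self _).trans (Complex.abs_im_le_norm _))
    have h13 : 2 / |κ| + 1 ≤ ‖BF μ' E ε‖ :=
      h10.trans ((le_abs_self _).trans (Complex.abs_im_le_norm _))
    have h14 : ‖BF μ' E ε‖ * ‖1 + (κ : ℂ) * BF μ E ε‖ = ‖BF μ E ε‖ := by
      rw [← norm_mul, hK E ε hε]
    have h15 : |κ| * ‖BF μ E ε‖ - 1 ≤ ‖1 + (κ : ℂ) * BF μ E ε‖ := by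
      have := norm_sub_norm_le ((κ : ℂ) * BF μ E ε) (-1)
      rw [norm_mul, norm_neg, norm_one, sub_neg_eq_add, add_comm ((κ : ℂ) * BF μ E ε) 1,
        Complex.norm_real, Real.norm_eq_abs] at this
      exact this
    have h16 : 2 ≤ |κ| * ‖BF μ E ε‖ := by
      rw [div_le_iff₀ hκ0] at h12
      linarith
    have h17 : |κ| * ‖BF μ E ε‖ / 2 ≤ ‖1 + (κ : ℂ) * BF μ E ε‖ := by linarith
    have h18 : (2 / |κ| + 1) * (|κ| * ‖BF μ E ε‖ / 2) ≤ ‖BF μ E ε‖ := by
      calc (2 / |κ| + 1) * (|κ| * ‖BF μ E ε‖ / 2) ≤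
          ‖BF μ' E ε‖ * ‖1 + (κ : ℂ) * BF μ E ε‖ :=
            mul_le_mul h13 h17 (by positivity) (norm_nonneg _)
        _ = _ := h14
    have h19 : (2 / |κ| + 1) * (|κ| * ‖BF μ E ε‖ / 2) = ‖BF μ E ε‖ + |κ| * ‖BF μ E ε‖ / 2 := by
      field_simp
    rw [h19] at h18
    linarith
  have e4 := measure_eq_zero_iff_ae_notMem.2 e3
  exact e4

theorem ez_norm (E ε t : ℝ) :
    ‖Complex.exp (Complex.I * (E + Complex.I * ε) * t)‖ = Real.exp (-ε * t) := by
  rw [Complex.norm_exp]
  congr 1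
  simp

theorem lap (μ : Measure ℝ) [IsFiniteMeasure μ] (E ε : ℝ) (hε : 0 < ε) :
    ∫ t in Set.Ioi (0 : ℝ), Complex.exp (Complex.I * (E + Complex.I * ε) * t) *
      (∫ x : ℝ, Complex.exp (-(Complex.I * t * x)) ∂μ) = -Complex.I * BF μ E ε := by
  have e1 : ∀ t : ℝ, Complex.exp (Complex.I * (E + Complex.I * ε) * t) *
      (∫ x : ℝ, Complex.exp (-(Complex.I * t * x)) ∂μ) =
      ∫ x : ℝ, Complex.exp (Complex.I * ((E + Complex.I * ε) - x) * t) ∂μ := by
    intro t
    rw [← integral_const_mul]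
    refine integral_congr_ae (Eventually.of_forall fun x => ?_)
    show _ * _ = _
    rw [← Complex.exp_add]
    congr 1
    ring
  simp only [e1]
  rw [integral_integral_swap]
  · unfold BF
    rw [← integral_const_mul]
    refine integral_congr_ae (Eventually.of_forall fun x => ?_)
    show ∫ t in Set.Ioi (0 : ℝ), Complex.exp (Complex.I * ((E + Complex.I * ε) - x) * t) = _
    have hre : (Complex.I * ((E + Complex.I * ε) - x)).re < 0 := by
      simp [hε]
    rw [integral_exp_mul_complex_Ioi hre 0]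
    have hne : (x : ℂ) - (E + Complex.I * ε) ≠ 0 := by
      intro h
      have := den_norm x E ε hε
      rw [h, norm_zero] at this
      linarith
    have hne2 : Complex.I * ((E + Complex.I * ε) - x) ≠ 0 := by
      intro h
      rw [h] at hre
      simp at hre
    simp only [Complex.ofReal_zero, mul_zero, Complex.exp_zero]
    rw [div_eq_iff hne2]
    have hI : Complex.I * Complex.I = -1 := Complex.I_mul_I
    have h5 : -Complex.I * ((x : ℂ) - (E + Complex.I * ε))⁻¹ *
        (Complex.I * ((E + Complex.I * ε) - x)) = Complex.I * Complex.I *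
          (((x : ℂ) - (E + Complex.I * ε))⁻¹ * ((x : ℂ) - (E + Complex.I * ε))) := by ring
    rw [h5, inv_mul_cancel₀ hne, mul_one, hI]
  · have h1 : Integrable (fun p : ℝ × ℝ => Real.exp (-ε * p.1) * (1 : ℝ))
        ((volume.restrict (Set.Ioi 0)).prod μ) :=
      Integrable.mul_prod (f := fun t : ℝ => Real.exp (-ε * t)) (g := fun _ : ℝ => (1 : ℝ))
        (exp_neg_integrableOn_Ioi 0 hε) (integrable_const _)
    refine h1.mono' ?_ (Eventually.of_forall fun p => ?_)
    · refine Continuous.aestronglyMeasurable ?_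
      unfold Function.uncurry
      fun_prop
    · simp only [Function.uncurry]
      rw [mul_one, Complex.norm_exp]
      refine le_of_eq ?_
      congr 1
      simp

theorem fam_hh {X : Type} [NormedAddCommGroup X] [InnerProductSpace ℂ X] [CompleteSpace X]
    (U : ℝ → UG X) (e : X) (hF : Fam U e) (κ κ' t : ℝ) :
    hh (U κ') e t = hh (U κ) e t - (Complex.I * ((κ' - κ : ℝ) : ℂ)) *
      ∫ s in (0 : ℝ)..t, hh (U κ') e s * hh (U κ) e (t - s) := by
  unfold hh
  rw [hF κ κ' t e, inner_sub_right, inner_smul_right]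
  congr 2
  have hc : Continuous fun s : ℝ => ⟪e, (U κ').U s e⟫_ℂ • (U κ).U (t - s) e :=
    (continuous_const.inner ((U κ').cont' e)).smul
      (((U κ).cont' e).comp (continuous_const.sub continuous_id))
  have h := (innerSL ℂ e).intervalIntegral_comp_comm (hc.intervalIntegrable (μ := volume) 0 t)
  simp only [innerSL_apply_apply, inner_smul_right] at h
  exact h.symm

theorem krein {X : Type} [NormedAddCommGroup X] [InnerProductSpace ℂ X] [CompleteSpace X]
    (U : ℝ → UG X) (e : X) (hF : Fam U e) (κ κ' : ℝ) (μ μ' : Measure ℝ) [IsFiniteMeasure μ]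
    [IsFiniteMeasure μ']
    (hμ : ∀ t : ℝ, ⟪e, (U κ).U t e⟫_ℂ = ∫ E : ℝ, Complex.exp (-(Complex.I * t * E)) ∂μ)
    (hμ' : ∀ t : ℝ, ⟪e, (U κ').U t e⟫_ℂ = ∫ E : ℝ, Complex.exp (-(Complex.I * t * E)) ∂μ')
    (E ε : ℝ) (hε : 0 < ε) :
    BF μ' E ε * (1 + ((κ' - κ : ℝ) : ℂ) * BF μ E ε) = BF μ E ε := by
  obtain ⟨ez, hez⟩ : ∃ ez : ℝ → ℂ, ez = fun t : ℝ =>
      Complex.exp (Complex.I * (E + Complex.I * ε) * t) := ⟨_, rfl⟩
  have hezc : Continuous ez := by rw [hez]; fun_prop
  have hezn : ∀ t, ‖ez t‖ = Real.exp (-ε * t) := fun t => by rw [hez]; exact ez_norm E ε t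
  have heza : ∀ s t, ez (s + t) = ez s * ez t := fun s t => by
    rw [hez]
    show Complex.exp _ = Complex.exp _ * Complex.exp _
    rw [← Complex.exp_add]
    congr 1
    push_cast
    ring
  obtain ⟨a, ha⟩ : ∃ a : ℝ → ℂ, a = (Set.Ioi 0).indicator fun t => ez t * hh (U κ) e t :=
    ⟨_, rfl⟩
  obtain ⟨a', ha'⟩ : ∃ a' : ℝ → ℂ, a' = (Set.Ioi 0).indicator fun t => ez t * hh (U κ') e t :=
    ⟨_, rfl⟩
  have hint : ∀ k : ℝ, Integrable ((Set.Ioi 0).indicator fun t => ez t * hh (U k) e t) := by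
    intro k
    rw [integrable_indicator_iff measurableSet_Ioi]
    have h1 : IntegrableOn (fun t : ℝ => Real.exp (-ε * t) * ‖e‖ ^ 2) (Set.Ioi 0) :=
      (exp_neg_integrableOn_Ioi 0 hε).mul_const _
    refine h1.mono' ((hezc.mul (hh_cont (U k) e)).aestronglyMeasurable)
      (Eventually.of_forall fun t => ?_)
    rw [norm_mul, hezn]
    exact mul_le_mul_of_nonneg_left (hh_norm _ _ _) (Real.exp_pos _).le
  have hai : Integrable a := by rw [ha]; exact hint κ
  have hai' : Integrable a' := by rw [ha']; exact hint κ'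
  have hIa : ∫ t, a t = -Complex.I * BF μ E ε := by
    rw [ha, integral_indicator measurableSet_Ioi, ← lap μ E ε hε]
    refine integral_congr_ae (Eventually.of_forall fun t => ?_)
    show ez t * hh (U κ) e t = _
    rw [hez]
    unfold hh
    rw [hμ t]
  have hIa' : ∫ t, a' t = -Complex.I * BF μ' E ε := by
    rw [ha', integral_indicator measurableSet_Ioi, ← lap μ' E ε hε]
    refine integral_congr_ae (Eventually.of_forall fun t => ?_)
    show ez t * hh (U κ') e t = _
    rw [hez]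
    unfold hh
    rw [hμ' t]
  obtain ⟨q, hq⟩ : ∃ q : ℝ → ℂ, q = MeasureTheory.convolution a' a
      (ContinuousLinearMap.mul ℂ ℂ) volume := ⟨_, rfl⟩
  have hqi : Integrable q := by
    rw [hq]
    exact hai'.integrable_convolution _ hai
  have hIq : ∫ t, q t = (-Complex.I * BF μ' E ε) * (-Complex.I * BF μ E ε) := by
    rw [hq, integral_convolution (ContinuousLinearMap.mul ℂ ℂ) hai' hai, hIa, hIa']
    rfl
  have hqt : ∀ t, q t = (Set.Ioi 0).indicator (fun t => ez t *
      ∫ s in (0 : ℝ)..t, hh (U κ') e s * hh (U κ) e (t - s)) t := by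
    intro t
    rw [hq, convolution_def]
    simp only [ContinuousLinearMap.mul_apply']
    have h1 : ∀ s, a' s * a (t - s) = (Set.Ioo 0 t).indicator (fun s => ez t *
        (hh (U κ') e s * hh (U κ) e (t - s))) s := by
      intro s
      rw [ha, ha']
      by_cases hs : 0 < s
      · by_cases hst : s < t
        · rw [Set.indicator_of_mem (show s ∈ Set.Ioi (0 : ℝ) from hs),
            Set.indicator_of_mem (show t - s ∈ Set.Ioi (0 : ℝ) from sub_pos.2 hst),
            Set.indicator_of_mem (show s ∈ Set.Ioo 0 t from ⟨hs, hst⟩)]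
          have : ez t = ez s * ez (t - s) := by rw [← heza]; congr 1; ring
          rw [this]
          ring
        · rw [Set.indicator_of_notMem (show t - s ∉ Set.Ioi (0 : ℝ) from fun h =>
              hst (sub_pos.1 h)),
            Set.indicator_of_notMem (show s ∉ Set.Ioo 0 t from fun h => hst h.2), mul_zero]
      · rw [Set.indicator_of_notMem (show s ∉ Set.Ioi (0 : ℝ) from fun h => hs h),
          Set.indicator_of_notMem (show s ∉ Set.Ioo 0 t from fun h => hs h.1), zero_mul]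
    simp only [h1]
    rw [integral_indicator measurableSet_Ioo, integral_const_mul]
    by_cases ht : 0 < t
    · rw [Set.indicator_of_mem (show t ∈ Set.Ioi (0 : ℝ) from ht),
        intervalIntegral.integral_of_le ht.le, integral_Ioc_eq_integral_Ioo]
    · rw [Set.indicator_of_notMem (show t ∉ Set.Ioi (0 : ℝ) from fun h => ht h),
        Set.Ioo_eq_empty ht]
      simp
  have hrel : ∀ t, a' t = a t - (Complex.I * ((κ' - κ : ℝ) : ℂ)) * q t := by
    intro t
    rw [hqt, ha, ha']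
    by_cases ht : 0 < t
    · rw [Set.indicator_of_mem (show t ∈ Set.Ioi (0 : ℝ) from ht),
        Set.indicator_of_mem (show t ∈ Set.Ioi (0 : ℝ) from ht),
        Set.indicator_of_mem (show t ∈ Set.Ioi (0 : ℝ) from ht), fam_hh U e hF κ κ' t]
      ring
    · rw [Set.indicator_of_notMem (show t ∉ Set.Ioi (0 : ℝ) from fun h => ht h),
        Set.indicator_of_notMem (show t ∉ Set.Ioi (0 : ℝ) from fun h => ht h),
        Set.indicator_of_notMem (show t ∉ Set.Ioi (0 : ℝ) from fun h => ht h)]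
      ring
  have hfin : ∫ t, a' t = (∫ t, a t) - (Complex.I * ((κ' - κ : ℝ) : ℂ)) * ∫ t, q t := by
    rw [← integral_const_mul, ← integral_sub hai (hqi.const_mul _)]
    exact integral_congr_ae (Eventually.of_forall hrel)
  rw [hIa, hIa', hIq] at hfin
  have hI : Complex.I * Complex.I = -1 := Complex.I_mul_I
  have h3 : -Complex.I * (BF μ' E ε * (1 + ((κ' - κ : ℝ) : ℂ) * BF μ E ε)) =
      -Complex.I * BF μ E ε := by
    linear_combination hfin + (-Complex.I * ((κ' - κ : ℝ) : ℂ)) * BF μ' E ε * BF μ E ε * hI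
  exact mul_left_cancel₀ (neg_ne_zero.2 Complex.I_ne_zero) h3

end Pool.Agent.U619.ZV
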