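import Pool.Agent.U619.ZV.Cyc
import Pool.Agent.U619.ZV.Rank
import Pool.Agent.U619.BS.Det

/-! # The averaged velocity vanishes: deterministic part -/

set_option autoImplicit false

open MeasureTheory Filter Topology
open scoped BigOperators ENNReal NNReal InnerProductSpace ComplexConjugate

namespace Pool.Agent.U619.ZV

open Pool.Agent.H5R2.NB Pool.Agent.H5R2.NBA Pool.Agent.U619.BS

/-- the quadratic forms of the averaged velocity and of its square on vectors with the same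
evolution -/
theorem forms {d : ℕ} (c : ℝ) (V V' : Site d → ℝ) (W W' : UG (L2 (Site d))) (hW : IsGrp c V W)
    (hW' : IsGrp c V' W') (j : Fin d) (v B B' : L2 (Site d) →L[ℂ] L2 (Site d)) (hv : IsVel c j v)
    (hB : ∀ u, Tendsto (fun N : ℕ => avP W v N u) atTop (𝓝 (B u)))
    (hB' : ∀ u, Tendsto (fun N : ℕ => avP W' v N u) atTop (𝓝 (B' u))) (φ ψ : L2 (Site d))
    (hφ : ∀ t, W'.U t φ = W.U t φ) (hψ : ∀ t, W'.U t ψ = W.U t ψ) :
    ⟪φ, B ψ⟫_ℂ = ⟪φ, B' ψ⟫_ℂ ∧ ⟪B φ, B ψ⟫_ℂ = ⟪B' φ, B' ψ⟫_ℂ := by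
  obtain ⟨κ, hκ, hexp⟩ := Pool.Agent.U619.NB.exp_bound d c
  obtain ⟨M, hMdef⟩ : ∃ M, M = 2 * κ + 1 := ⟨_, rfl⟩
  have hM : 0 ≤ M := by rw [hMdef]; positivity
  have hc : ∀ u, Tendsto (fun t => GG W M hM (cf M j) t u) atTop (𝓝 (B u)) := fun u =>
    cf_conv c κ M hκ (by linarith) hM V W hW j (fun u t ht => hexp j V W hW u t ht) v B hv hB u
  have hc' : ∀ u, Tendsto (fun t => GG W' M hM (cf M j) t u) atTop (𝓝 (B' u)) := fun u =>
    cf_conv c κ M hκ (by linarith) hM V' W' hW' j (fun u t ht => hexp j V' W' hW' u t ht) v B' hv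
      hB' u
  have hG : ∀ (χ : L2 (Site d)), (∀ t, W'.U t χ = W.U t χ) → ∀ t,
      W.U t (GG W M hM (cf M j) t χ) = W'.U t (GG W' M hM (cf M j) t χ) := by
    intro χ hχ t
    unfold GG Pool.Agent.U619.BS.FF
    rw [U_inv, U_inv, hχ]
  constructor
  · have h1 : Tendsto (fun t => ⟪φ, GG W M hM (cf M j) t ψ⟫_ℂ) atTop (𝓝 ⟪φ, B ψ⟫_ℂ) :=
      tendsto_const_nhds.inner (hc ψ)
    have h2 : Tendsto (fun t => ⟪φ, GG W' M hM (cf M j) t ψ⟫_ℂ) atTop (𝓝 ⟪φ, B' ψ⟫_ℂ) :=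
      tendsto_const_nhds.inner (hc' ψ)
    refine tendsto_nhds_unique h1 (h2.congr fun t => ?_)
    have a1 := inner_U W t φ (GG W M hM (cf M j) t ψ)
    have a2 := inner_U W' t φ (GG W' M hM (cf M j) t ψ)
    rw [← a1, ← a2, hφ, hG ψ hψ]
  · have h1 : Tendsto (fun t => ⟪GG W M hM (cf M j) t φ, GG W M hM (cf M j) t ψ⟫_ℂ) atTop
        (𝓝 ⟪B φ, B ψ⟫_ℂ) := (hc φ).inner (hc ψ)
    have h2 : Tendsto (fun t => ⟪GG W' M hM (cf M j) t φ, GG W' M hM (cf M j) t ψ⟫_ℂ) atTop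
        (𝓝 ⟪B' φ, B' ψ⟫_ℂ) := (hc' φ).inner (hc' ψ)
    refine tendsto_nhds_unique h1 (h2.congr fun t => ?_)
    have a1 := inner_U W t (GG W M hM (cf M j) t φ) (GG W M hM (cf M j) t ψ)
    have a2 := inner_U W' t (GG W' M hM (cf M j) t φ) (GG W' M hM (cf M j) t ψ)
    rw [← a1, ← a2, hG ψ hψ, hG φ hφ]

/-- the main step: if the averaged observable at `e` is orthogonal to the orbit of `e` and vanishes
on the absolutely continuous vectors, and if its quadratic form and the quadratic form of its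
square on the complement of the cyclic space of `e` are not changed by a rank one perturbation,
then it vanishes at `e` -/
theorem core {ι : Type} (U : ℝ → UG (L2 ι)) (e : L2 ι) (hF : Fam U e) (κ κ' : ℝ) (hκ : κ ≠ κ')
    (B B' : L2 ι →L[ℂ] L2 ι) (sym : ∀ x y, ⟪B x, y⟫_ℂ = ⟪x, B y⟫_ℂ)
    (comm : ∀ t x, B ((U κ).U t x) = (U κ).U t (B x))
    (comm' : ∀ t x, B' ((U κ').U t x) = (U κ').U t (B' x))
    (anti : ∀ t, ⟪(U κ).U t e, B e⟫_ℂ = 0)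
    (frm : ∀ φ ψ, φ ∈ QN.cyc (U κ) e → ψ ∈ QN.cyc (U κ) e →
      ⟪φ, B ψ⟫_ℂ = ⟪φ, B' ψ⟫_ℂ ∧ ⟪B φ, B ψ⟫_ℂ = ⟪B' φ, B' ψ⟫_ℂ)
    (ac : ∀ ψ, ACvec (U κ) ψ → B ψ = 0) : B e = 0 := by
  have hKK : QN.cyc (U κ') e = QN.cyc (U κ) e := by
    ext φ
    rw [QN.mem_cyc, QN.mem_cyc]
    exact ⟨fun h => (t_NN ι U e hF κ' κ φ h).1, fun h => (t_NN ι U e hF κ κ' φ h).1⟩
  have hUU : ∀ φ ∈ QN.cyc (U κ) e, ∀ t, (U κ').U t φ = (U κ).U t φ := fun φ hφ =>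
    (t_NN ι U e hF κ κ' φ ((QN.mem_cyc _ _ _).1 hφ)).2
  obtain ⟨P, hP⟩ : ∃ P : L2 ι →L[ℂ] L2 ι, P = (QN.cyc (U κ) e).starProjection := ⟨_, rfl⟩
  have hPm : ∀ x, P x ∈ QN.cyc (U κ) e := fun x => by
    rw [hP]; exact Submodule.starProjection_apply_mem _ x
  have hPo : ∀ x, ∀ w ∈ QN.cyc (U κ) e, ⟪x - P x, w⟫_ℂ = 0 := fun x w hw => by
    rw [hP]; exact Submodule.starProjection_inner_eq_zero _ _ hw
  have hPo' : ∀ x, ∀ w ∈ QN.cyc (U κ) e, ⟪w, x - P x⟫_ℂ = 0 := fun x w hw => by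
    rw [← inner_conj_symm, hPo x w hw, map_zero]
  have hPc : ∀ t x, P ((U κ).U t x) = (U κ).U t (P x) := fun t x => by
    rw [hP]; exact QN.proj_comm (U κ) e x t
  have hPc' : ∀ t x, P ((U κ').U t x) = (U κ').U t (P x) := fun t x => by
    have h := QN.proj_comm (U κ') e x t
    have h2 : ∀ y, (QN.cyc (U κ') e).starProjection y = P y := by
      intro y
      apply Submodule.eq_starProjection_of_mem_of_inner_eq_zero
      · rw [hKK]; exact hPm y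
      · intro w hw
        rw [hKK] at hw
        exact hPo y w hw
    rw [h2, h2] at h
    exact h
  have hPB : ∀ ψ ∈ QN.cyc (U κ) e, P (B ψ) = P (B' ψ) := by
    intro ψ hψ
    have h1 : P (B ψ) - P (B' ψ) ∈ QN.cyc (U κ) e := Submodule.sub_mem _ (hPm _) (hPm _)
    have h2 : ⟪P (B ψ) - P (B' ψ), P (B ψ) - P (B' ψ)⟫_ℂ = 0 := by
      have e1 := hPo' (B ψ) _ h1
      have e2 := hPo' (B' ψ) _ h1
      have e3 := (frm _ ψ h1 hψ).1
      rw [inner_sub_right] at e1 e2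
      rw [inner_sub_right (P (B ψ) - P (B' ψ)) (P (B ψ)) (P (B' ψ))]
      linear_combination e3 - e1 + e2
    exact sub_eq_zero.1 (inner_self_eq_zero.1 h2)
  have hD : ∀ φ ∈ QN.cyc (U κ) e, ∀ ψ ∈ QN.cyc (U κ) e,
      ⟪B φ - P (B φ), B ψ - P (B ψ)⟫_ℂ = ⟪B' φ - P (B' φ), B' ψ - P (B' ψ)⟫_ℂ := by
    intro φ hφ ψ hψ
    have e1 := hPo' (B ψ) _ (hPm (B φ))
    have e2 := hPo (B φ) _ (hPm (B ψ))
    have e3 := hPo' (B' ψ) _ (hPm (B φ))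
    have e4 := hPo (B' φ) _ (hPm (B ψ))
    have e5 := (frm φ ψ hφ hψ).2
    rw [← hPB φ hφ, ← hPB ψ hψ]
    rw [← hPB ψ hψ] at e3
    rw [← hPB φ hφ] at e4
    simp only [inner_sub_left, inner_sub_right] at e1 e2 e3 e4 ⊢
    linear_combination e5 - e1 - e2 + e3 + e4
  obtain ⟨g, hg⟩ : ∃ g, g = B e := ⟨_, rfl⟩
  have hgK : g ∈ QN.cyc (U κ) e := by
    rw [QN.mem_cyc, hg]
    intro t
    rw [← inner_conj_symm, anti t, map_zero]
  obtain ⟨c, hc⟩ : ∃ c, c = B g - P (B g) := ⟨_, rfl⟩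
  obtain ⟨c', hc'⟩ : ∃ c', c' = B' g - P (B' g) := ⟨_, rfl⟩
  have hUc : ∀ t, (U κ).U t c = B ((U κ).U t g) - P (B ((U κ).U t g)) := by
    intro t
    rw [comm, hPc, hc, map_sub]
  have hUc' : ∀ t, (U κ').U t c' = B' ((U κ).U t g) - P (B' ((U κ).U t g)) := by
    intro t
    rw [← hUU g hgK, comm', hPc', hc', map_sub]
  have hcorr : ∀ t, ⟪c, (U κ).U t c⟫_ℂ = ⟪c', (U κ').U t c'⟫_ℂ := by
    intro t
    rw [hUc, hUc', hc, hc']
    exact hD g hgK _ (QN.cyc_inv _ _ _ _ hgK)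
  obtain ⟨μ, hμf, hμ⟩ := spectral (U κ) e
  obtain ⟨μ', hμf', hμ'⟩ := spectral (U κ') e
  have hcK : ∀ φ ∈ QN.cyc (U κ) e, ⟪φ, c⟫_ℂ = 0 := fun φ hφ => by
    rw [hc]; exact hPo' _ φ hφ
  have hcK' : ∀ φ ∈ QN.cyc (U κ') e, ⟪φ, c'⟫_ℂ = 0 := fun φ hφ => by
    rw [hKK] at hφ
    rw [hc']; exact hPo' _ φ hφ
  obtain ⟨ρ, hρf, hρμ, hρ⟩ := cyc_measure (U κ) e c μ hμ hcK
  obtain ⟨ρ', hρf', hρμ', hρ'⟩ := cyc_measure (U κ') e c' μ' hμ' hcK'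
  have hρρ : ρ = ρ' := by
    refine Measure.ext_of_charFun ?_
    funext t
    rw [charFun_apply_real, charFun_apply_real]
    have h1 := hρ (-t)
    have h2 := hρ' (-t)
    have h3 : ∀ E : ℝ, Complex.exp (-(Complex.I * ((-t : ℝ) : ℂ) * E)) =
        Complex.exp (t * E * Complex.I) := by
      intro E
      congr 1
      push_cast
      ring
    simp only [h3] at h1 h2
    rw [← h1, ← h2, hcorr]
  have hac : ρ ≪ volume := by
    refine AD μ μ' ρ (κ' - κ) (sub_ne_zero.2 hκ.symm) (fun E ε hε => ?_) hρμ (hρρ ▸ hρμ')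
    exact krein U e hF κ κ' μ μ' hμ hμ' E ε hε
  have hBc : B c = 0 := ac c ⟨ρ, hρf, hac, hρ⟩
  have hc0 : c = 0 := by
    have h1 : ⟪c, c⟫_ℂ = 0 := by
      have h2 : ⟪c, c⟫_ℂ = ⟪c, B g⟫_ℂ - ⟪c, P (B g)⟫_ℂ := by
        rw [← inner_sub_right, ← hc]
      have h3 : ⟪c, P (B g)⟫_ℂ = 0 := by
        rw [← inner_conj_symm, hcK _ (hPm _), map_zero]
      rw [h2, h3, ← sym, hBc, inner_zero_left, sub_zero]
    exact inner_self_eq_zero.1 h1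
  have hBg : B g ∈ QN.cyc (U κ) e := by
    have h1 : B g = P (B g) := by
      rw [hc0] at hc
      exact (sub_eq_zero.1 hc.symm)
    rw [h1]
    exact hPm _
  have hg0 : ⟪g, g⟫_ℂ = 0 := by
    have h1 := (QN.mem_cyc _ _ _).1 hBg 0
    rw [(U κ).zero', sym, ← hg] at h1
    exact h1
  rw [← hg]
  exact inner_self_eq_zero.1 hg0

end Pool.Agent.U619.ZV
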