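import Pool.Agent.U619.ZV.Boch2
import Pool.Agent.H5R2.NBA.SPEC
import Pool.Agent.H5R2.NBA.QN

/-! # Spectral measures of the vectors of a cyclic space -/

set_option autoImplicit false

open MeasureTheory Filter Topology
open scoped BigOperators ENNReal NNReal InnerProductSpace ComplexConjugate

namespace Pool.Agent.U619.ZV

open Pool.Agent.H5R2.NB Pool.Agent.H5R2.NBA

/-- the spectral measure of a vector of the cyclic space of `e` is absolutely continuous with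
respect to the spectral measure of `e` -/
theorem cyc_measure {ι : Type} (W : UG (L2 ι)) (e c : L2 ι) (μ : Measure ℝ) [IsFiniteMeasure μ]
    (hμ : ∀ t : ℝ, ⟪e, W.U t e⟫_ℂ = ∫ E : ℝ, Complex.exp (-(Complex.I * t * E)) ∂μ)
    (hc : ∀ φ ∈ QN.cyc W e, ⟪φ, c⟫_ℂ = 0) :
    ∃ ρ : Measure ℝ, IsFiniteMeasure ρ ∧ ρ ≪ μ ∧
      ∀ t : ℝ, ⟪c, W.U t c⟫_ℂ = ∫ E : ℝ, Complex.exp (-(Complex.I * t * E)) ∂ρ := by
  obtain ⟨J, hJ, hJn⟩ := SPEC.iso (SPEC.xx μ) (fun t => W.U t e) (fun s t => by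
    rw [SPEC.gram, hh_inner]
    exact (hμ (t - s)).symm.trans rfl |>.trans rfl) (SPEC.dense μ)
  have hJi : ∀ u v : Lp ℂ 2 μ, ⟪J u, J v⟫_ℂ = ⟪u, v⟫_ℂ := by
    intro u v
    let L : Lp ℂ 2 μ →ₗᵢ[ℂ] L2 ι := ⟨J.toLinearMap, hJn⟩
    exact L.inner_map_map u v
  obtain ⟨f, hf⟩ : ∃ f : Lp ℂ 2 μ, f = J.adjoint c := ⟨_, rfl⟩
  have hmem : c - J f ∈ QN.cyc W e := by
    rw [QN.mem_cyc]
    intro t
    rw [← hJ t, inner_sub_left, hJi, hf, ContinuousLinearMap.adjoint_inner_left, sub_self]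
  have hJf : ∀ φ ∈ QN.cyc W e, ⟪φ, J f⟫_ℂ = 0 := by
    intro φ hφ
    have h1 : J.adjoint φ = 0 := by
      refine SPEC.orth μ _ fun t => ?_
      rw [ContinuousLinearMap.adjoint_inner_right, hJ t, ← inner_conj_symm,
        (QN.mem_cyc W e φ).1 hφ t, map_zero]
    rw [← ContinuousLinearMap.adjoint_inner_left, h1, inner_zero_left]
  have hcf : c = J f := by
    have h1 : ⟪c - J f, c - J f⟫_ℂ = 0 := by
      rw [inner_sub_right, hc _ hmem, hJf _ hmem, sub_zero]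
    exact sub_eq_zero.1 (inner_self_eq_zero.1 h1)
  have hfm : StronglyMeasurable (f : ℝ → ℂ) := Lp.stronglyMeasurable f
  have hdm : Measurable fun E => ‖f E‖ₑ ^ 2 := hfm.measurable.enorm.pow_const 2
  have hfin : ∫⁻ E, ‖f E‖ₑ ^ 2 ∂μ < ∞ := by
    have h1 := (Lp.memLp f).2
    rw [eLpNorm_lt_top_iff_lintegral_rpow_enorm_lt_top (by norm_num) (by norm_num)] at h1
    simpa using h1
  refine ⟨μ.withDensity fun E => ‖f E‖ₑ ^ 2, isFiniteMeasure_withDensity hfin.ne,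
    withDensity_absolutelyContinuous _ _, fun t => ?_⟩
  rw [integral_withDensity_eq_integral_toReal_smul hdm (Eventually.of_forall fun E => by
    exact ENNReal.pow_lt_top enorm_lt_top)]
  have h1 : ⟪c, W.U t c⟫_ℂ = ⟪f, J.adjoint (W.U t c)⟫_ℂ := by
    conv_lhs => rw [hcf]
    rw [ContinuousLinearMap.adjoint_inner_right, ← hcf]
  have h2 := SPEC.adj_eq W e c μ J hJ (-t)
  rw [neg_neg] at h2
  rw [h1, L2.inner_def]
  refine integral_congr_ae ?_
  filter_upwards [h2] with E hE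
  rw [hE, RCLike.inner_apply, ← hf]
  have h3 : (‖f E‖ₑ ^ 2).toReal = ‖f E‖ ^ 2 := by
    rw [ENNReal.toReal_pow, toReal_enorm]
  rw [h3, Complex.real_smul]
  have h4 : ((‖f E‖ ^ 2 : ℝ) : ℂ) = f E * conj (f E) := by
    rw [Complex.mul_conj, Complex.normSq_eq_norm_sq]
  rw [h4]
  show SPEC.ee t E * f E * conj (f E) = f E * conj (f E) * SPEC.ee t E
  ring

end Pool.Agent.U619.ZV
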