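import Pool.Agent.U619.ZV.Core
import Pool.Agent.R988.NQ.QAll
import Pool.Agent.R988.NQ.WF

/-! # The averaged velocity vanishes almost surely for every law which is not a point mass -/

set_option autoImplicit false

open MeasureTheory Filter Topology
open scoped BigOperators ENNReal NNReal InnerProductSpace ComplexConjugate

namespace Pool.Agent.U619.ZV

open Pool.Agent.H5R2.NB Pool.Agent.H5R2.NBA Pool.Agent.U619.BS

variable {d : ℕ} {c : ℝ} {ev : (Site d → ℝ) → UG (L2 (Site d))}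
variable {ν : Measure ℝ} [IsProbabilityMeasure ν]

theorem annealed (hev : ∀ V, IsGrp c V (ev V)) (hν : ∀ κ : ℝ, ν {κ} ≠ 1) {j : Fin d}
    {v : L2 (Site d) →L[ℂ] L2 (Site d)} (hv : IsVel c j v) :
    Tendsto (fun N : ℕ => ∫⁻ V, ‖avP (ev V) v N (dl 0)‖ₑ ^ 2 ∂(PP d ν)) atTop (𝓝 0) := by
  obtain ⟨Nk, b, hNk, hb, hae⟩ := ALL.a_LIM d c ev hev ν j v hv
  have hasym := Pool.Agent.R988.NQ.asymptotic (ν := ν) hev hv
  have hQ : ∀ᵐ V ∂(PP d ν), ∃ B : L2 (Site d) →L[ℂ] L2 (Site d), Good (ev V) v Nk B ∧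
      (∀ x, Tendsto (fun N : ℕ => avP (ev V) v N x) atTop (𝓝 (B x))) ∧
      (∀ ψ ∈ HAC (ev V), B ψ = 0) ∧ B (dl 0) = b V := by
    filter_upwards [hae, hasym] with V h1 h2
    obtain ⟨B1, hB1, hB1b⟩ := h1
    obtain ⟨B2, hB2, hB2z⟩ := h2
    have h3 : ∀ x, B1 x = B2 x := fun x =>
      tendsto_nhds_unique (hB1 x).1 ((hB2 x).comp hNk)
    refine ⟨B1, hB1, fun x => ?_, fun ψ hψ => ?_, hB1b⟩
    · rw [h3]; exact hB2 x
    · rw [h3]; exact hB2z hν ψ hψ
  have hmp := (t_RES d ν).1
  have h2 := Measure.ae_ae_of_ae_prod (hmp.quasiMeasurePreserving.ae hQ)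
  have hb0 : ∀ᵐ V ∂(PP d ν), b V = 0 := by
    filter_upwards [hQ, h2] with V hV hV2
    obtain ⟨B, hB, hBt, hBac, hBb⟩ := hV
    have h3 : ∃ k, k ≠ V 0 ∧ ∃ B : L2 (Site d) →L[ℂ] L2 (Site d),
        Good (ev (Function.update V 0 k)) v Nk B ∧
        ∀ x, Tendsto (fun N : ℕ => avP (ev (Function.update V 0 k)) v N x) atTop (𝓝 (B x)) := by
      by_contra h
      have h4 : ∀ᵐ k ∂ν, k = V 0 := by
        filter_upwards [hV2] with k hk
        by_contra hne
        obtain ⟨B', k1, k2, -⟩ := hk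
        exact h ⟨k, hne, B', k1, k2⟩
      have h5 : ν {V 0} = 1 := by
        rw [← prob_compl_eq_zero_iff (measurableSet_singleton _)]
        exact h4
      exact hν _ h5
    obtain ⟨k, hk, B', hB', hBt'⟩ := h3
    have hfam := t_FAM ALL.a_UN d c ev hev V
    have hup : Function.update V 0 (V 0) = V := Function.update_eq_self 0 V
    have hz := core (fun κ => ev (Function.update V 0 κ)) (dl 0) hfam (V 0) k hk.symm B B'
      (fun x y => AB.B_symm (ev V) v (STAT.vel_symm t_OPS c j v hv) Nk B hB x y)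
      (fun t x => by
        simp only [hup]
        exact (t_BP (Site d) (ev V) v Nk hNk B hB).2 t x)
      (fun t x => (t_BP (Site d) (ev (Function.update V 0 k)) v Nk hNk B' hB').2 t x)
      (fun t => by
        simp only [hup]
        exact t_ANTI (t_SYM ALL.a_UN) t_BP d c V (ev V) (hev V) j v hv Nk hNk B hB t)
      (fun φ ψ hφ hψ => by
        have h6 : ∀ φ ∈ QN.cyc (ev (Function.update V 0 (V 0))) (dl 0), ∀ t,
            (ev (Function.update V 0 k)).U t φ = (ev V).U t φ := by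
          intro φ hφ t
          have := (t_NN (Site d) (fun κ => ev (Function.update V 0 κ)) (dl 0) hfam (V 0) k φ
            ((QN.mem_cyc _ _ _).1 hφ)).2 t
          simpa only [hup] using this
        exact forms c V (Function.update V 0 k) (ev V) (ev (Function.update V 0 k)) (hev V)
          (hev _) j v B B' hv hBt hBt' φ ψ (h6 φ hφ) (h6 ψ hψ))
      (fun ψ hψ => by
        simp only [hup] at hψ
        exact hBac ψ (Pool.Agent.H5R2.NBA.ALL.a_SPEC _ _ _ hψ))
    rw [← hBb]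
    exact hz
  refine hb.congr fun N => ?_
  refine lintegral_congr_ae ?_
  filter_upwards [hb0] with V hV
  rw [hV, sub_zero]

/-- almost surely the averaged velocity tends strongly to zero -/
theorem quenched (hev : ∀ V, IsGrp c V (ev V)) (hν : ∀ κ : ℝ, ν {κ} ≠ 1) {j : Fin d}
    {v : L2 (Site d) →L[ℂ] L2 (Site d)} (hv : IsVel c j v) :
    ∀ᵐ V ∂(PP d ν), ∀ x, Tendsto (fun N : ℕ => avP (ev V) v N x) atTop (𝓝 0) := by
  have h := Pool.Agent.R988.NQ.quench (ν := ν) hev hv le_rfl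
    (Pool.Agent.R988.NQ.fld_zero (d := d)) (fun V f g => by simp)
    (fun V t x => by simp) (by simpa using annealed hev hν hv)
  filter_upwards [h] with V hV x
  simpa using hV x

end Pool.Agent.U619.ZV
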