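import Pool.Agent.U619.ZV.Fin
import Pool.Agent.U619.NB.Mom

/-! # All moments are subballistic for every law which is not a point mass -/

set_option autoImplicit false

open MeasureTheory Filter Topology
open scoped BigOperators ENNReal NNReal InnerProductSpace ComplexConjugate

namespace Pool.Agent.U619.ZV

open Pool.Agent.H5R2.NB Pool.Agent.U619.NB
open Pool.Agent.R988.NQ hiding velocity_zero annealed

variable {d : ℕ} {c : ℝ} {ev : (Site d → ℝ) → UG (L2 (Site d))}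
variable {ν : Measure ℝ} [IsProbabilityMeasure ν]

theorem velocity_zero (hev : ∀ V, IsGrp c V (ev V)) (hν : ∀ κ : ℝ, ν {κ} ≠ 1) {j : Fin d}
    {v : L2 (Site d) →L[ℂ] L2 (Site d)} (hv : IsVel c j v) :
    ∀ᵐ V ∂(PP d ν), ∀ x, Tendsto (fun t : ℝ => t⁻¹ *
      ‖∫ s in (0 : ℝ)..t, (ev V).U (-s) (v ((ev V).U s x))‖) atTop (𝓝 0) := by
  filter_upwards [quenched hev hν hv] with V hV x
  exact Pool.Agent.R988.NQ.real_times (ev V) v x (hV x)

theorem all_zero (hev : ∀ V, IsGrp c V (ev V)) (hν : ∀ κ : ℝ, ν {κ} ≠ 1) :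
    ∀ᵐ V ∂(PP d ν), ∀ u : L2 (Site d),
      (∀ (j : Fin d) (v : L2 (Site d) →L[ℂ] L2 (Site d)), IsVel c j v →
        Tendsto (fun T : ℝ => ((T : ℂ)⁻¹) • ∫ s in (0 : ℝ)..T,
          (ev V).U (-s) (v ((ev V).U s u))) atTop (𝓝 0)) ∧
      (M2 u ≠ ∞ → Tendsto (fun t : ℝ => M2 ((ev V).U t u) / ENNReal.ofReal (t ^ 2))
        atTop (𝓝 0)) ∧
      (∀ ε : ℝ, 0 < ε → Tendsto (fun t : ℝ => out (ε * t) ((ev V).U t u)) atTop (𝓝 0)) := by
  choose v0 hv0 using fun i : Fin d => (t_OPS d).2.2 c i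
  have huniq : ∀ (j : Fin d) (v : L2 (Site d) →L[ℂ] L2 (Site d)), IsVel c j v → v = v0 j := by
    intro j v hv
    ext u x
    rw [hv u x, hv0 j u x]
  have hall : ∀ᵐ V ∂(PP d ν), ∀ j : Fin d, ∀ x, Tendsto (fun t : ℝ => t⁻¹ *
      ‖∫ s in (0 : ℝ)..t, (ev V).U (-s) (v0 j ((ev V).U s x))‖) atTop (𝓝 0) := by
    rw [ae_all_iff]
    intro j
    exact velocity_zero hev hν (hv0 j)
  filter_upwards [hall] with V hV
  have hmom : ∀ u : L2 (Site d), M2 u ≠ ∞ →
      Tendsto (fun t : ℝ => M2 ((ev V).U t u) / ENNReal.ofReal (t ^ 2)) atTop (𝓝 0) := by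
    intro u hm
    have hterm : ∀ j : Fin d, Tendsto (fun t : ℝ =>
        m2 j ((ev V).U t u) / ENNReal.ofReal (t ^ 2)) atTop (𝓝 0) := by
      intro j
      have hfin : m2 j u ≠ ∞ := by
        rw [second_eq] at hm
        exact ne_top_of_le_ne_top hm
          (Finset.single_le_sum (f := fun j => m2 j u)
            (fun _ _ => bot_le) (Finset.mem_univ j))
      have h1 : Tendsto (fun t : ℝ => ‖∫ s in (0 : ℝ)..t,
          (ev V).U (-s) (v0 j ((ev V).U s u))‖ₑ ^ 2 / ENNReal.ofReal (t ^ 2)) atTop (𝓝 0) := by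
        have h3 := (hV j u).pow 2
        rw [zero_pow (two_ne_zero)] at h3
        have h2 := (ENNReal.continuous_ofReal.tendsto 0).comp h3
        rw [ENNReal.ofReal_zero] at h2
        refine h2.congr' ?_
        filter_upwards [eventually_gt_atTop (0 : ℝ)] with t ht
        simp only [Function.comp]
        rw [mul_pow, mul_comm, inv_pow, ← div_eq_mul_inv,
          ENNReal.ofReal_div_of_pos (by positivity), ENNReal.ofReal_pow (norm_nonneg _),
          ofReal_norm]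
      refine tendsto_of_tendsto_of_tendsto_of_le_of_le tendsto_const_nhds
        (tendsto_aux hfin h1) (fun t => bot_le) fun t => ?_
      refine ENNReal.div_le_div_right ?_ _
      exact mom_le c _ _ (hev _) j (v0 j) (hv0 j) u t
    have hsum := tendsto_finsetSum (Finset.univ : Finset (Fin d)) (fun j _ => hterm j)
    simp only [Finset.sum_const_zero] at hsum
    refine hsum.congr fun t => ?_
    rw [second_eq, ENNReal.div_eq_inv_mul, Finset.mul_sum]
    refine Finset.sum_congr rfl fun j _ => ?_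
    rw [ENNReal.div_eq_inv_mul]
  intro u
  refine ⟨fun j v hv => ?_, hmom u, fun ε hε => ?_⟩
  · rw [huniq j v hv]
    rw [tendsto_zero_iff_norm_tendsto_zero]
    refine (hV j u).congr' ?_
    filter_upwards [eventually_gt_atTop (0 : ℝ)] with t ht
    rw [norm_smul, norm_inv, Complex.norm_real, Real.norm_eq_abs, abs_of_pos ht]
  · rw [ENNReal.tendsto_nhds_zero]
    intro δ hδ
    obtain ⟨η, hη, hη2⟩ : ∃ η : ℝ, 0 < η ∧ 2 * ENNReal.ofReal (η ^ 2) ≤ δ / 2 := by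
      have h1 : Tendsto (fun η : ℝ => 2 * ENNReal.ofReal (η ^ 2)) (𝓝[>] 0) (𝓝 0) := by
        have hc : Continuous fun η : ℝ => ENNReal.ofReal (η ^ 2) :=
          ENNReal.continuous_ofReal.comp (continuous_pow 2)
        have h2 := (hc.tendsto 0).mono_left (nhdsWithin_le_nhds (s := Set.Ioi (0 : ℝ)))
        have h3 := ENNReal.Tendsto.const_mul (a := 2) h2 (Or.inr (by norm_num))
        simpa using h3
      have h2 : 0 < δ / 2 := ENNReal.half_pos hδ.ne'
      obtain ⟨η, h3, h4⟩ := ((ENNReal.tendsto_nhds_zero.1 h1 (δ / 2) h2).and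
        self_mem_nhdsWithin).exists
      exact ⟨η, h4, h3⟩
    obtain ⟨w, hw, hwu⟩ := exists_near u η hη
    have h1 := hmom w hw
    have h2 : Tendsto (fun t : ℝ => 2 * ((ENNReal.ofReal (ε ^ 2))⁻¹ *
        (M2 ((ev V).U t w) / ENNReal.ofReal (t ^ 2)))) atTop (𝓝 0) := by
      have h3 : (ENNReal.ofReal (ε ^ 2))⁻¹ ≠ ∞ :=
        ENNReal.inv_ne_top.2 (ENNReal.ofReal_pos.2 (by positivity)).ne'
      have h4 := ENNReal.Tendsto.const_mul (a := (ENNReal.ofReal (ε ^ 2))⁻¹) h1 (Or.inr h3)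
      have h5 := ENNReal.Tendsto.const_mul (a := 2) h4 (Or.inr (by norm_num))
      simpa using h5
    have h3 : 0 < δ / 2 := ENNReal.half_pos hδ.ne'
    filter_upwards [ENNReal.tendsto_nhds_zero.1 h2 (δ / 2) h3, eventually_gt_atTop (0 : ℝ)]
      with t ht ht0
    have h4 : out (ε * t) ((ev V).U t w) ≤ (ENNReal.ofReal (ε ^ 2))⁻¹ *
        (M2 ((ev V).U t w) / ENNReal.ofReal (t ^ 2)) := by
      refine (out_le (ε * t) (by positivity) _).trans (le_of_eq ?_)
      rw [mul_pow, ENNReal.ofReal_mul (by positivity), ENNReal.div_eq_inv_mul,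
        ENNReal.div_eq_inv_mul, ENNReal.mul_inv (Or.inr ENNReal.ofReal_ne_top)
          (Or.inl ENNReal.ofReal_ne_top), mul_assoc]
    have h5 : ‖(ev V).U t u - (ev V).U t w‖ₑ ^ 2 ≤ ENNReal.ofReal (η ^ 2) := by
      rw [← map_sub, ← ofReal_norm, (ev V).norm', ← ENNReal.ofReal_pow (norm_nonneg _)]
      exact ENNReal.ofReal_le_ofReal (pow_le_pow_left₀ (norm_nonneg _) hwu.le 2)
    calc out (ε * t) ((ev V).U t u)
        ≤ 2 * out (ε * t) ((ev V).U t w) + 2 * ‖(ev V).U t u - (ev V).U t w‖ₑ ^ 2 :=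
          out_add _ _ _
      _ ≤ 2 * ((ENNReal.ofReal (ε ^ 2))⁻¹ * (M2 ((ev V).U t w) / ENNReal.ofReal (t ^ 2))) +
          2 * ENNReal.ofReal (η ^ 2) := by gcongr
      _ ≤ δ / 2 + δ / 2 := add_le_add ht hη2
      _ = δ := ENNReal.add_halves δ


theorem main2 (hev : ∀ V, IsGrp c V (ev V)) (hν : ∀ κ : ℝ, ν {κ} ≠ 1) :
    Tendsto (fun t : ℝ => (∫⁻ V, ∑' x : Site d,
        ENNReal.ofReal (∑ i : Fin d, (x i : ℝ) ^ 2) * ‖((ev V).U t (dl 0)) x‖ₑ ^ 2 ∂(PP d ν)) /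
          ENNReal.ofReal (t ^ 2)) atTop (𝓝 0) := by
  have hv : ∀ j : Fin d, ∃ v : L2 (Site d) →L[ℂ] L2 (Site d), IsVel c j v :=
    fun j => (t_OPS d).2.2 c j
  choose v hv using hv
  have : IsProbabilityMeasure (PP d ν) := by unfold PP; infer_instance
  have key : ∀ j : Fin d, Tendsto (fun t : ℝ =>
      (∫⁻ V, ‖MAIN.F ev (v j) t V‖ₑ ^ 2 ∂(PP d ν)) / ENNReal.ofReal (t ^ 2)) atTop (𝓝 0) := by
    intro j
    exact MAIN.tend_one c ev hev (Pool.Agent.H5R2.NB.ALL.a_CV) (v j) (PP d ν) (annealed hev hν (hv j))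
  have hsum : ∀ t : ℝ, (∫⁻ V, ∑' x : Site d,
      ENNReal.ofReal (∑ i : Fin d, (x i : ℝ) ^ 2) * ‖((ev V).U t (dl 0)) x‖ₑ ^ 2
        ∂(PP d ν)) / ENNReal.ofReal (t ^ 2) =
      ∑ j : Fin d, (∫⁻ V, ‖MAIN.F ev (v j) t V‖ₑ ^ 2 ∂(PP d ν)) / ENNReal.ofReal (t ^ 2) := by
    intro t
    have e1 : ∀ V, ∑' x : Site d,
        ENNReal.ofReal (∑ i : Fin d, (x i : ℝ) ^ 2) * ‖((ev V).U t (dl 0)) x‖ₑ ^ 2 =
        ∑ j : Fin d, ‖MAIN.F ev (v j) t V‖ₑ ^ 2 := by
      intro V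
      have e2 : ∀ x : Site d, ENNReal.ofReal (∑ i : Fin d, (x i : ℝ) ^ 2) *
          ‖((ev V).U t (dl 0)) x‖ₑ ^ 2 = ∑ j : Fin d, ENNReal.ofReal ((x j : ℝ) ^ 2) *
          ‖((ev V).U t (dl 0)) x‖ₑ ^ 2 := by
        intro x
        rw [ENNReal.ofReal_sum_of_nonneg (fun i _ => sq_nonneg _), Finset.sum_mul]
      simp_rw [e2]
      rw [Summable.tsum_finsetSum (fun i _ => ENNReal.summable)]
      refine Finset.sum_congr rfl fun j _ => ?_
      exact (t_MOM Pool.Agent.H5R2.NB.ALL.a_UN t_OPS) d c V (ev V) (hev V) j (v j) (hv j) t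
    simp_rw [e1]
    rw [lintegral_finsetSum _ (fun j _ =>
      (MAIN.cont_F c ev hev (Pool.Agent.H5R2.NB.ALL.a_CV) (v j) t).enorm.measurable.pow_const 2)]
    rw [ENNReal.div_eq_inv_mul, Finset.mul_sum]
    refine Finset.sum_congr rfl fun j _ => ?_
    rw [ENNReal.div_eq_inv_mul]
  simp_rw [hsum]
  have := tendsto_finsetSum (Finset.univ : Finset (Fin d)) (fun j _ => key j)
  simpa using this

/-- all moments, almost surely -/
theorem moments (hd : 0 < d) (hev : ∀ V, IsGrp c V (ev V)) (hν : ∀ κ : ℝ, ν {κ} ≠ 1) :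
    ∀ᵐ V ∂(PP d ν), ∀ (p : ℝ), 0 < p → ∀ u : L2 (Site d), M2 u ≠ ∞ → (∀ j, EE j u ≠ ∞) →
      Tendsto (fun t : ℝ => Mp p ((ev V).U t u) / ENNReal.ofReal (t ^ p)) atTop (𝓝 0) := by
  filter_upwards [all_zero hev hν] with V hV
  intro p hp u hm hE
  have h2 := (hV u).2.1 hm
  rcases le_or_gt p 2 with hp2 | hp2
  · refine abs_low p hp _ _ (‖u‖ₑ ^ 2) (ENNReal.pow_ne_top enorm_ne_top) h2 fun s hs t => ?_
    have := low_le p hp hp2 s hs ((ev V).U t u)
    have e : ‖(ev V).U t u‖ₑ = ‖u‖ₑ := by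
      rw [← ofReal_norm, (ev V).norm', ofReal_norm]
    rwa [e] at this
  · obtain ⟨L, K, hL, hK, h⟩ := high_evo hd c p hp2
    refine abs_high p hp2 _ _ L hL (ENNReal.ofReal K * ∑ j : Fin d, EE j u) ?_ h2
      fun t ht => h V (ev V) (hev V) u t ht
    exact ENNReal.mul_ne_top ENNReal.ofReal_ne_top (ENNReal.sum_ne_top.2 fun j _ => hE j)

/-- all moments, in the mean -/
theorem moments_mean (hd : 0 < d) (hev : ∀ V, IsGrp c V (ev V)) (hν : ∀ κ : ℝ, ν {κ} ≠ 1)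
    (p : ℝ) (hp : 0 < p) :
    Tendsto (fun t : ℝ => (∫⁻ V, Mp p ((ev V).U t (dl 0)) ∂(PP d ν)) / ENNReal.ofReal (t ^ p))
      atTop (𝓝 0) := by
  have h2 : Tendsto (fun t : ℝ => (∫⁻ V, M2 ((ev V).U t (dl 0)) ∂(PP d ν)) /
      ENNReal.ofReal (t ^ 2)) atTop (𝓝 0) := main2 hev hν
  have hprob : IsProbabilityMeasure (PP d ν) := by
    unfold PP
    infer_instance
  rcases le_or_gt p 2 with hp2 | hp2
  · refine abs_low p hp _ _ 1 (by norm_num) h2 fun s hs t => ?_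
    have h1 : ∀ V, Mp p ((ev V).U t (dl 0)) ≤ ENNReal.ofReal (s ^ p) * 1 +
        ENNReal.ofReal (s ^ (p - 2)) * M2 ((ev V).U t (dl 0)) := by
      intro V
      have := low_le p hp hp2 s hs ((ev V).U t (dl 0))
      have e : ‖(ev V).U t (dl 0)‖ₑ = 1 := by
        rw [← ofReal_norm, (ev V).norm', GEN.norm_dl]
        simp
      rw [e] at this
      simpa using this
    refine (lintegral_mono h1).trans (le_of_eq ?_)
    rw [lintegral_add_left measurable_const, lintegral_const, measure_univ, mul_one,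
      lintegral_const_mul' _ _ ENNReal.ofReal_ne_top]
  · obtain ⟨L, K, hL, hK, h⟩ := high_evo hd c p hp2
    refine abs_high p hp2 _ _ L hL (ENNReal.ofReal K * ∑ j : Fin d, EE j (dl 0)) ?_ h2
      fun t ht => ?_
    · exact ENNReal.mul_ne_top ENNReal.ofReal_ne_top
        (ENNReal.sum_ne_top.2 fun j _ => EE_dl j 0)
    · refine (lintegral_mono fun V => h V (ev V) (hev V) (dl 0) t ht).trans (le_of_eq ?_)
      rw [lintegral_add_right _ measurable_const, lintegral_const, measure_univ, mul_one,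
        lintegral_const_mul' _ _ ENNReal.ofReal_ne_top]


end Pool.Agent.U619.ZV
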